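import Pool.Agent.Helper16_XQ.StmtG
import Pool.Agent.Helper69_AEU.Per
import Pool.Agent.Helper40_AEU.Cg
import Pool.Agent.Helper72_AEU.REF

/-!
Squad XQ, Part G: tools for the certificates (TO3, TO4).
-/

set_option autoImplicit false

namespace Pool.Agent.XQ.H30

open MeasureTheory Complex Filter Topology Pool.Agent.H62T
open Pool.Agent.H16F (Sublin)
open Pool.Agent.AEU
open Pool.Agent.AEU.H69 (ee ee_cont ee_per ee_add ee_pi norm_ee sub_ii lam_def)

/-! ### Angles -/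

theorem exists_ee {z : ℂ} (hz : ‖z‖ = 1) (φ : ℝ) :
    ∃ θ ∈ Set.Ico φ (φ + 2 * Real.pi), z = ee θ := by
  have h1 : z = ee (Complex.arg z) := by
    have := Complex.norm_mul_exp_arg_mul_I z
    rw [hz, Complex.ofReal_one, one_mul] at this
    exact this.symm
  obtain ⟨y, hy, hy2⟩ := ee_per.exists_mem_Ico Real.two_pi_pos (Complex.arg z) φ
  exact ⟨y, hy, by rw [h1, hy2]⟩

theorem lam_arc (h : ℂ → ℝ) (φ : ℝ) :
    lam h = ∫ θ in φ..(φ + 2 * Real.pi), h (ee θ) := by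
  have hp : Function.Periodic (fun θ => h (ee θ)) (2 * Real.pi) := fun θ => by
    simp only [ee_per θ]
  have := hp.intervalIntegral_add_eq φ 0
  rw [zero_add] at this
  rw [lam_def]
  exact this.symm

/-- sublinear functions which agree on the unit circle are equal -/
theorem sub_ext {h h' : ℂ → ℝ} (hh : Sublin h) (hh' : Sublin h') (φ : ℝ)
    (H : ∀ θ ∈ Set.Icc φ (φ + 2 * Real.pi), h (ee θ) = h' (ee θ)) : h = h' := by
  funext w
  by_cases hw : w = 0
  · rw [hw, H69.sub_zero' hh, H69.sub_zero' hh']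
  · have hn : 0 < ‖w‖ := norm_pos_iff.2 hw
    obtain ⟨θ, hθ, e⟩ := exists_ee (H72.norm_unit hw) φ
    have e2 : w = ((‖w‖ : ℝ) : ℂ) * ee θ := by
      rw [← e]
      have : ((‖w‖ : ℝ) : ℂ) ≠ 0 := by exact_mod_cast hn.ne'
      field_simp
    rw [e2, hh.2 _ _ hn.le, hh'.2 _ _ hn.le, H θ ⟨hθ.1, hθ.2.le⟩]

theorem I_mul_ee (θ : ℝ) : I * ee θ = ee (θ + Real.pi / 2) := by
  unfold ee
  push_cast
  rw [add_mul, Complex.exp_add, Complex.exp_pi_div_two_mul_I]
  ring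

theorem I_mul_ee' (θ : ℝ) : I * ee (θ - Real.pi / 2) = ee θ := by
  rw [I_mul_ee]
  congr 1
  ring

theorem ip_comm (z w : ℂ) : ip z w = ip w z := by
  simp only [ip]; ring

theorem dt_comm (z w : ℂ) : dt z w = -dt w z := by
  simp only [dt]; ring

theorem ip_self (z : ℂ) : ip z z = ‖z‖ ^ 2 := by
  rw [Complex.sq_norm, Complex.normSq_apply]
  rfl

theorem ip_I_right (z w : ℂ) : ip z (I * w) = -dt z w := by
  simp only [ip, dt, mul_re, mul_im, I_re, I_im]; ring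

theorem norm_sq_add (z w : ℂ) : ‖z + w‖ ^ 2 = ‖z‖ ^ 2 + 2 * ip z w + ‖w‖ ^ 2 := by
  rw [← ip_self, ← ip_self, ← ip_self, H69.ip_add_left, H69.ip_add_right, H69.ip_add_right,
    ip_comm w z]
  ring

theorem norm_sq_sub (z w : ℂ) : ‖z - w‖ ^ 2 = ‖z‖ ^ 2 - 2 * ip z w + ‖w‖ ^ 2 := by
  rw [← ip_self, ← ip_self, ← ip_self, H69.ip_sub_left, H69.ip_sub_right, H69.ip_sub_right,
    ip_comm w z]
  ring

/-! ### The certificate at a vertex of a diagonal -/

section half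

variable {h : ℂ → ℝ} (hARC : ArcStatement) (hARZ : ArzStatement) (hh : Sublin h)

include hARC hh

theorem arc_int {a b : ℝ} (hab : a ≤ b) (hb : b < a + 2 * Real.pi) :
    h (I * ee a - I * ee b) ≤ ∫ θ in a..b, h (ee θ) := (hARC h hh a b hab hb).1

theorem arc_eq {a b : ℝ} (hab : a < b) (hb : b < a + 2 * Real.pi)
    (H : ∫ θ in a..b, h (ee θ) ≤ h (I * ee a - I * ee b)) :
    ∃ y : ℂ, In y h ∧ ∀ θ ∈ Set.Icc a b, h (ee θ) = ip (ee θ) y :=
  (hARC h hh a b hab.le hb).2 H hab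

include hARZ

theorem half_pos {ψ : ℝ} {a b : ℂ} {ca cb : ℝ} (ha : ‖a‖ = 1) (hb : ‖b‖ = 1)
    (e : (ca : ℂ) * a + (cb : ℂ) * b = 2 * ee ψ) (hca : 0 < ca) (hcb : 0 < cb)
    (hab : 0 < ip a b) (hd : ip a (I * ee ψ) < 0) :
    ca * h a + cb * h b ≤ ∫ θ in (ψ - Real.pi / 2)..(ψ + Real.pi / 2), h (ee θ) ∧
    (∫ θ in (ψ - Real.pi / 2)..(ψ + Real.pi / 2), h (ee θ) ≤ ca * h a + cb * h b →
      ∃ y, In y h ∧ ∀ θ ∈ Set.Icc (ψ - Real.pi / 2) (ψ + Real.pi / 2),
        h (ee θ) = ip (ee θ) y) := by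
  have hpi := Real.pi_pos
  set n := ee ψ with hn
  have hn1 : ‖n‖ = 1 := norm_ee ψ
  have eA : I * exp (((ψ - Real.pi / 2 : ℝ) : ℂ) * I) = n := I_mul_ee' ψ
  have eB : I * exp (((ψ + Real.pi / 2 : ℝ) : ℂ) * I) = -n := by
    have : I * ee (ψ + Real.pi / 2) = -n := by
      rw [I_mul_ee, ← ee_pi]; congr 1; ring
    exact this
  have eM : ((((ψ - Real.pi / 2) + (ψ + Real.pi / 2)) / 2 : ℝ) : ℂ) = ((ψ : ℝ) : ℂ) := by
    congr 1; ring
  have key := hARZ h hh (ψ - Real.pi / 2) (ψ + Real.pi / 2) (n - (ca : ℂ) * a) (by linarith)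
    (by linarith)
  rw [eA, eB, eM] at key
  have h2 : ip a n = (ca + cb * ip a b) / 2 := by
    have e2 : ip a ((ca : ℂ) * a + (cb : ℂ) * b) = ip a (2 * n) := by rw [e]
    rw [H69.ip_add_right, H69.ip_smul_right, H69.ip_smul_right, ip_self, ha] at e2
    have e3 : ip a (2 * n) = 2 * ip a n := by
      have := H69.ip_smul_right 2 a n
      push_cast at this
      exact this
    rw [e3] at e2
    linarith
  have hz : ‖n - (ca : ℂ) * a‖ < 1 := by
    have h3 : ‖n - (ca : ℂ) * a‖ ^ 2 < 1 := by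
      rw [norm_sq_sub, hn1, norm_mul, Complex.norm_real, ha, mul_one, H69.ip_smul_right,
        ip_comm n a, h2, Real.norm_eq_abs, sq_abs]
      nlinarith [mul_pos hca (mul_pos hcb hab)]
    nlinarith [norm_nonneg (n - (ca : ℂ) * a)]
  have hside : 0 < ip (n - (ca : ℂ) * a - n) (I * exp (((ψ : ℝ) : ℂ) * I)) := by
    have e4 : n - (ca : ℂ) * a - n = ((-ca : ℝ) : ℂ) * a := by push_cast; ring
    rw [e4, H69.ip_smul_left]
    have : I * exp (((ψ : ℝ) : ℂ) * I) = I * n := rfl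
    rw [this]
    nlinarith
  have key2 := key hz hside
  have e5 : n - (n - (ca : ℂ) * a) = (ca : ℂ) * a := by ring
  have e6 : n - (ca : ℂ) * a - -n = (cb : ℂ) * b := by
    have : n - (ca : ℂ) * a - -n = 2 * n - (ca : ℂ) * a := by ring
    rw [this, ← e]; ring
  rw [e5, e6, hh.2 _ _ hca.le, hh.2 _ _ hcb.le] at key2
  refine ⟨key2.1, fun H => ?_⟩
  obtain ⟨y, hy, hy2, -⟩ := key2.2 H
  exact ⟨y, hy, hy2⟩

omit hARZ in
theorem half_neg {ψ : ℝ} {a b : ℂ} {ca cb : ℝ}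
    (e : (ca : ℂ) * a + (cb : ℂ) * b = 2 * ee ψ) (hca : 0 < ca) (hcb : cb < 0) :
    ca * h a + cb * h b ≤ ∫ θ in (ψ - Real.pi / 2)..(ψ + Real.pi / 2), h (ee θ) ∧
    (∫ θ in (ψ - Real.pi / 2)..(ψ + Real.pi / 2), h (ee θ) ≤ ca * h a + cb * h b →
      ∃ y, In y h ∧ ∀ θ ∈ Set.Icc (ψ - Real.pi / 2) (ψ + Real.pi / 2),
        h (ee θ) = ip (ee θ) y) := by
  have hpi := Real.pi_pos
  have eA : I * ee (ψ - Real.pi / 2) = ee ψ := I_mul_ee' ψ
  have eB : I * ee (ψ + Real.pi / 2) = -ee ψ := by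
    rw [I_mul_ee, ← ee_pi]; congr 1; ring
  have key := arc_int hARC hh (a := ψ - Real.pi / 2) (b := ψ + Real.pi / 2) (by linarith)
    (by linarith)
  have keq := arc_eq hARC hh (a := ψ - Real.pi / 2) (b := ψ + Real.pi / 2) (by linarith)
    (by linarith)
  have e2 : I * ee (ψ - Real.pi / 2) - I * ee (ψ + Real.pi / 2) = 2 * ee ψ := by
    rw [eA, eB]; ring
  rw [e2] at key keq
  have e3 : (ca : ℂ) * a = 2 * ee ψ + ((-cb : ℝ) : ℂ) * b := by
    rw [← e]; push_cast; ring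
  have h1 : ca * h a ≤ h (2 * ee ψ) + (-cb) * h b := by
    rw [← hh.2 _ _ hca.le, e3, ← hh.2 _ _ (by linarith : (0 : ℝ) ≤ -cb)]
    exact hh.1 _ _
  refine ⟨by linarith, fun H => keq (by linarith)⟩

theorem half {ψ : ℝ} {a b : ℂ} {ca cb : ℝ} (ha : ‖a‖ = 1) (hb : ‖b‖ = 1)
    (hna : 0 < ip a (ee ψ)) (hnb : 0 < ip b (ee ψ))
    (e : (ca : ℂ) * a + (cb : ℂ) * b = 2 * ee ψ) (hca : ca ≠ 0) (hcb : cb ≠ 0)
    (hab : 0 < ip a b) (hd : dt a b ≠ 0) :
    ca * h a + cb * h b ≤ ∫ θ in (ψ - Real.pi / 2)..(ψ + Real.pi / 2), h (ee θ) ∧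
    (∫ θ in (ψ - Real.pi / 2)..(ψ + Real.pi / 2), h (ee θ) ≤ ca * h a + cb * h b →
      ∃ y, In y h ∧ ∀ θ ∈ Set.Icc (ψ - Real.pi / 2) (ψ + Real.pi / 2),
        h (ee θ) = ip (ee θ) y) := by
  have hs : ca * ip a (ee ψ) + cb * ip b (ee ψ) = 2 := by
    have e2 : ip ((ca : ℂ) * a + (cb : ℂ) * b) (ee ψ) = ip (2 * ee ψ) (ee ψ) := by rw [e]
    rw [H69.ip_add_left, H69.ip_smul_left, H69.ip_smul_left] at e2
    have e3 : ip (2 * ee ψ) (ee ψ) = 2 := by
      have := H69.ip_smul_left 2 (ee ψ) (ee ψ)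
      push_cast at this
      rw [this, ip_self, norm_ee]; norm_num
    rw [e3] at e2
    exact e2
  have ht : ca * ip a (I * ee ψ) + cb * ip b (I * ee ψ) = 0 := by
    have e2 : ip ((ca : ℂ) * a + (cb : ℂ) * b) (I * ee ψ) = ip (2 * ee ψ) (I * ee ψ) := by rw [e]
    rw [H69.ip_add_left, H69.ip_smul_left, H69.ip_smul_left] at e2
    rw [e2]
    simp only [ip, mul_re, mul_im, I_re, I_im]
    simp
    ring
  have e' : (cb : ℂ) * b + (ca : ℂ) * a = 2 * ee ψ := by rw [← e]; ring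
  rcases lt_or_gt_of_ne hca with h1 | h1
  · have h2 : 0 < cb := by
      by_contra h3
      rw [not_lt] at h3
      nlinarith [mul_pos (neg_pos.2 h1) hna, mul_nonneg (neg_nonneg.2 h3) hnb.le]
    have key := half_neg hARC hh e' h2 h1
    rw [add_comm (cb * h b)] at key
    exact key
  · rcases lt_or_gt_of_ne hcb with h2 | h2
    · exact half_neg hARC hh e h1 h2
    · rcases lt_trichotomy (ip a (I * ee ψ)) 0 with h3 | h3 | h3
      · exact half_pos hARC hARZ hh ha hb e h1 h2 hab h3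
      · exfalso
        rw [h3, mul_zero, zero_add] at ht
        have h4 := (mul_eq_zero.1 ht).resolve_left hcb
        apply hd
        rw [ip_I_right] at h3 h4
        -- both are parallel to `ee ψ`
        have h5 : (dt a b) * ip b (ee ψ) = 0 := by
          have n1 : (ee ψ).re ^ 2 + (ee ψ).im ^ 2 = 1 := H72.unit_sq (norm_ee ψ)
          have h6 : dt a (ee ψ) = 0 := by linarith
          have h7 : dt b (ee ψ) = 0 := by linarith
          have id1 : dt a b * ip b (ee ψ) = dt a (ee ψ) * (ip b b) - ip a b * dt b (ee ψ) := by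
            simp only [dt, ip]; ring
          rw [id1, h6, h7]; ring
        exact (mul_eq_zero.1 h5).resolve_right hnb.ne'
      · have h4 : ip b (I * ee ψ) < 0 := by
          by_contra h5
          rw [not_lt] at h5
          nlinarith [mul_pos h1 h3, mul_nonneg h2.le h5]
        have key := half_pos hARC hARZ hh hb ha e' h2 h1 (by rw [ip_comm]; exact hab) h4
        rw [add_comm (cb * h b)] at key
        exact key

end half

/-! ### Points near a vertex -/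

theorem stay {X : Finset HP} {v t : ℂ} (hv : v ∈ Cl X)
    (ht : ∀ r ∈ X, ip r.1 v = r.2 → ip r.1 t ≤ 0) :
    ∃ ε > 0, ∀ s : ℝ, 0 ≤ s → s < ε → v + (s : ℂ) * t ∈ Cl X := by
  classical
  have key : ∀ r ∈ X, ∃ ε > 0, ∀ s : ℝ, 0 ≤ s → s < ε → ip r.1 (v + (s : ℂ) * t) ≤ r.2 := by
    intro r hr
    rcases eq_or_lt_of_le (hv r hr) with h1 | h1
    · refine ⟨1, one_pos, fun s hs _ => ?_⟩
      rw [H69.ip_add_right, H69.ip_smul_right, h1]
      nlinarith [ht r hr h1, mul_nonneg hs (neg_nonneg.2 (ht r hr h1))]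
    · refine ⟨(r.2 - ip r.1 v) / (|ip r.1 t| + 1), by
        have := abs_nonneg (ip r.1 t)
        exact div_pos (by linarith) (by linarith), fun s hs hs2 => ?_⟩
      have h3 : 0 < |ip r.1 t| + 1 := by have := abs_nonneg (ip r.1 t); linarith
      rw [lt_div_iff₀ h3] at hs2
      rw [H69.ip_add_right, H69.ip_smul_right]
      have h4 := le_abs_self (ip r.1 t)
      nlinarith [mul_le_mul_of_nonneg_left h4 hs]
  choose! ε hε hε2 using key
  rcases X.eq_empty_or_nonempty with h0 | h0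
  · refine ⟨1, one_pos, fun s _ _ r hr => ?_⟩
    rw [h0] at hr
    exact absurd hr (Finset.notMem_empty r)
  · refine ⟨X.inf' h0 ε, ?_, fun s hs hs2 r hr => hε2 r hr s hs ?_⟩
    · rw [gt_iff_lt, Finset.lt_inf'_iff]
      exact fun r hr => hε r hr
    · exact hs2.trans_le (Finset.inf'_le _ hr)

end Pool.Agent.XQ.H30
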