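import Pool.Agent.Helper35_XQ.Stmt

/-!
Squad XQ, Part A2: module CRU.
-/

set_option autoImplicit false

namespace Pool.Agent.XQ.GI.H30

open MeasureTheory Complex Pool.Agent.H62T Pool.Agent.H60K
open scoped ENNReal

theorem norm_uI (α : ℝ) (s : Fin 3) : ‖uI α s‖ = 1 := by
  have h1 := Real.sin_sq_add_cos_sq α
  have key : ∀ z : ℂ, z.re ^ 2 + z.im ^ 2 = 1 → ‖z‖ = 1 := by
    intro z hz
    rw [Complex.norm_eq_sqrt_sq_add_sq, hz, Real.sqrt_one]
  unfold uI
  split_ifs
  · apply key; simp only [neg_sq]; exact h1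
  · apply key; norm_num
  · apply key; exact h1

theorem univ3 : (Finset.univ : Finset (Fin 3)) = {0, 1, 2} := by decide

/-- module CRU -/
theorem cru (hLCI : LciStatement) (hBLV : BlvStatement) (hLDM : LdmStatement) :
    CruStatement := by
  intro α b h0 h1 hb
  obtain ⟨R, hR, loc⟩ := hLCI α b h0 h1 hb
  have hu := norm_uI α
  set l : ℝ := 1 / R with hl
  have hl0 : 0 < l := by positivity
  obtain ⟨K0, hK0⟩ := exists_nat_ge (l ^ 2)
  set K : ℕ := K0 + 1 with hK
  have hKl : l ^ 2 ≤ K := by rw [hK]; push_cast; linarith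
  have hKR : (0 : ℝ) < K := by positivity
  have : NeZero K := ⟨by omega⟩
  obtain ⟨C, p, h2⟩ := (hLDM (uI α) (hI α b) hu K (fun _ A => Vis {0, 1, 2} ∅ A) 1
      l R (1 / 2) (fun A => MeasurableSet.const _) one_pos hl0 hR (by norm_num)).1
      (fun x A hS hC _ => (loc K x A hS hC).2)
      (fun x A hS hC => (loc K x A hS hC).1)
  set m : ℝ := (1 - 1 / 2) * l ^ 2 with hm
  have hm0 : 0 < m := by rw [hm]; positivity
  refine ⟨max C 0 * (4 / m), p, by positivity, fun t ht => ?_⟩
  have hsum : ∑ _j : Fin K, t / K = t := by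
    simp only [Finset.sum_const, Finset.card_univ, Fintype.card_fin, nsmul_eq_mul]
    field_simp
  have h3 := h2 (fun _ => t / K) (fun _ => by positivity) (fun _ => by
    rw [hsum, div_mul_eq_mul_div, div_le_iff₀ hKR]
    calc t * l ^ 2 ≤ t * K := by gcongr
      _ = 1 ^ 2 * t * K := by ring)
  rw [hsum] at h3
  have h4 := hBLV (uI α) (hI α b) hu K (fun _ => t / K) (fun _ => by positivity)
    Finset.univ ∅ (Finset.disjoint_empty_right _)
  rw [hsum, univ3] at h4
  rw [univ3, h4]
  refine h3.trans (ENNReal.ofReal_le_ofReal ?_)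
  have h5 : Real.exp (-(m / (4 * t))) / t ≤ 4 / m := by
    have h6 : m / (4 * t) ≤ Real.exp (m / (4 * t)) := by
      have := Real.add_one_le_exp (m / (4 * t))
      linarith
    rw [Real.exp_neg, div_le_div_iff₀ ht hm0, inv_mul_le_iff₀ (Real.exp_pos _)]
    calc m = m / (4 * t) * (4 * t) := by field_simp
      _ ≤ Real.exp (m / (4 * t)) * (4 * t) := by gcongr
  calc C * (1 + t) ^ p / t * Real.exp (-(m / (4 * t)))
      = C * (1 + t) ^ p * (Real.exp (-(m / (4 * t))) / t) := by ring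
    _ ≤ max C 0 * (1 + t) ^ p * (Real.exp (-(m / (4 * t))) / t) := by
        gcongr; exact le_max_left _ _
    _ ≤ max C 0 * (1 + t) ^ p * (4 / m) := by gcongr
    _ = max C 0 * (4 / m) * (1 + t) ^ p := by ring

end Pool.Agent.XQ.GI.H30
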