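import Pool.Agent.Helper30_XQ.Base

/-!
Squad XQ, Part G: geometric tools for the certificates (TO3, TO4).
-/

set_option autoImplicit false

namespace Pool.Agent.XQ.H30

open MeasureTheory Complex Filter Topology Pool.Agent.H62T
open Pool.Agent.H16F (Sublin)
open Pool.Agent.AEU
open Pool.Agent.AEU.H69 (ee ee_cont ee_per ee_add ee_pi norm_ee sub_ii lam_def)

theorem ip_ee_ee (θ ψ : ℝ) : ip (ee θ) (ee ψ) = Real.cos (θ - ψ) := by
  rw [H69.ip_ee, Real.cos_sub]
  unfold ee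
  rw [Complex.exp_mul_I, ← Complex.ofReal_cos, ← Complex.ofReal_sin]
  simp only [mul_re, mul_im, add_re, add_im, ofReal_re, ofReal_im, I_re, I_im]
  ring

/-- unit vectors in the closed half-plane of `ee ψ` -/
theorem mem_half {z : ℂ} (hz : ‖z‖ = 1) {ψ : ℝ} (h : 0 ≤ ip z (ee ψ)) :
    ∃ θ ∈ Set.Icc (ψ - Real.pi / 2) (ψ + Real.pi / 2), z = ee θ := by
  have hpi := Real.pi_pos
  obtain ⟨θ, hθ, e⟩ := exists_ee hz (ψ - Real.pi)
  refine ⟨θ, ?_, e⟩
  rw [e, ip_ee_ee] at h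
  constructor
  · by_contra h1
    rw [not_le] at h1
    have h2 : Real.cos (ψ - θ) < 0 := Real.cos_neg_of_pi_div_two_lt_of_lt (by linarith)
      (by linarith [hθ.1])
    rw [← Real.cos_neg, neg_sub] at h2
    linarith
  · by_contra h1
    rw [not_le] at h1
    have h2 : Real.cos (θ - ψ) < 0 := Real.cos_neg_of_pi_div_two_lt_of_lt (by linarith)
      (by linarith [hθ.2])
    linarith

/-- Binet-Cauchy -/
theorem dt_mul_dt (a b c d : ℂ) : dt a b * dt c d = ip a c * ip b d - ip a d * ip b c := by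
  simp only [dt, ip]; ring

theorem ip_sq_add_dt_sq (a b : ℂ) : ip a b ^ 2 + dt a b ^ 2 = ‖a‖ ^ 2 * ‖b‖ ^ 2 := by
  rw [← ip_self, ← ip_self]
  simp only [dt, ip]; ring

/-- Cramer's rule -/
theorem cramer {a b : ℂ} (hd : dt a b ≠ 0) (n : ℂ) :
    ((2 * dt n b / dt a b : ℝ) : ℂ) * a + ((2 * dt a n / dt a b : ℝ) : ℂ) * b = 2 * n := by
  have h1 : ((dt a b : ℝ) : ℂ) ≠ 0 := by exact_mod_cast hd
  have h2 : ((dt n b : ℝ) : ℂ) * a + ((dt a n : ℝ) : ℂ) * b = ((dt a b : ℝ) : ℂ) * n := by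
    apply Complex.ext
    · simp only [dt, add_re, re_ofReal_mul]; ring
    · simp only [dt, add_im, im_ofReal_mul]; ring
  push_cast
  field_simp
  linear_combination h2

theorem angle {x y : ℝ} (h : x ^ 2 + y ^ 2 = 1) (hy : 0 < y) :
    ∃ η, 0 < η ∧ η < Real.pi ∧ Real.cos η = x ∧ Real.sin η = y := by
  have h1 : -1 < x := by nlinarith
  have h2 : x < 1 := by nlinarith
  refine ⟨Real.arccos x, Real.arccos_pos.2 h2, ?_, Real.cos_arccos h1.le h2.le, ?_⟩
  · refine lt_of_le_of_ne (Real.arccos_le_pi x) fun h3 => ?_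
    rw [Real.arccos_eq_pi] at h3
    linarith
  · rw [Real.sin_arccos]
    rw [show 1 - x ^ 2 = y ^ 2 by linarith, Real.sqrt_sq hy.le]

theorem quad2 {x : ℝ} (h0 : 0 < x) (h1 : x < 2 * Real.pi) (hs : 0 < Real.sin x)
    (hc : Real.cos x < 0) : Real.pi / 2 < x ∧ x < Real.pi := by
  have hpi := Real.pi_pos
  have h2 : x < Real.pi := by
    by_contra h3
    rw [not_lt] at h3
    have h4 : 0 ≤ Real.sin (x - Real.pi) :=
      Real.sin_nonneg_of_nonneg_of_le_pi (by linarith) (by linarith)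
    rw [Real.sin_sub_pi] at h4
    linarith
  refine ⟨?_, h2⟩
  by_contra h3
  rw [not_lt] at h3
  have h4 : 0 ≤ Real.cos x := Real.cos_nonneg_of_neg_pi_div_two_le_of_le (by linarith) h3
  linarith

theorem lt_half_iff {x : ℝ} (h0 : 0 < x) (h1 : x < Real.pi) :
    x < Real.pi / 2 ↔ 0 < Real.cos x := by
  have hpi := Real.pi_pos
  constructor
  · intro h
    exact Real.cos_pos_of_mem_Ioo ⟨by linarith, h⟩
  · intro h
    by_contra h3
    rw [not_lt] at h3
    have := Real.cos_nonpos_of_pi_div_two_le_of_le h3 (by linarith)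
    linarith

theorem ne_half {x : ℝ} (h : Real.cos x ≠ 0) : x ≠ Real.pi / 2 := by
  rintro rfl
  exact h Real.cos_pi_div_two

/-! ### Sums and images over four elements -/

theorem sum4 {i j k l : HP} (ne : Ne4 i j k l) {M : Type} [AddCommMonoid M] (f : HP → M) :
    ∑ s ∈ ({i, j, k, l} : Finset HP), f s = f i + f j + (f k + f l) := by
  classical
  obtain ⟨h1, h2, h3, h4, h5, h6⟩ := ne
  rw [Finset.sum_insert, Finset.sum_insert, Finset.sum_insert, Finset.sum_singleton]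
  · abel
  · simp [h6]
  · simp [h4, h5]
  · simp [h1, h2, h3]

theorem card4 {i j k l : HP} (ne : Ne4 i j k l) : ({i, j, k, l} : Finset HP).card = 4 := by
  have h := sum4 ne (fun _ => (1 : ℕ))
  rw [Finset.card_eq_sum_ones]
  exact h

open Classical in
theorem Mm_image {g : Iso2} {i j k l : HP} {c : HP → ℝ} {p1 p2 p3 p4 : Prop}
    (hi : c i < 0 ↔ ¬ p1) (hj : c j < 0 ↔ ¬ p2) (hk : c k < 0 ↔ ¬ p3) (hl : c l < 0 ↔ ¬ p4) :
    (Mm {i, j, k, l} c).image (mv g) = ((if p1 then ∅ else {mv g i}) ∪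
      (if p2 then ∅ else {mv g j})) ∪ ((if p3 then ∅ else {mv g k}) ∪
      (if p4 then ∅ else {mv g l})) := by
  ext t
  simp only [Mm, Finset.mem_image, Finset.mem_filter, Finset.mem_insert, Finset.mem_singleton,
    Finset.mem_union]
  constructor
  · rintro ⟨a, ⟨h1 | h1 | h1 | h1, h2⟩, rfl⟩
    · subst h1; left; left; rw [if_neg (hi.1 h2)]; simp
    · subst h1; left; right; rw [if_neg (hj.1 h2)]; simp
    · subst h1; right; left; rw [if_neg (hk.1 h2)]; simp
    · subst h1; right; right; rw [if_neg (hl.1 h2)]; simp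
  · rintro ((h1 | h1) | (h1 | h1))
    · by_cases p : p1
      · rw [if_pos p] at h1; simp at h1
      · rw [if_neg p, Finset.mem_singleton] at h1
        exact ⟨i, ⟨Or.inl rfl, hi.2 p⟩, h1.symm⟩
    · by_cases p : p2
      · rw [if_pos p] at h1; simp at h1
      · rw [if_neg p, Finset.mem_singleton] at h1
        exact ⟨j, ⟨Or.inr (Or.inl rfl), hj.2 p⟩, h1.symm⟩
    · by_cases p : p3
      · rw [if_pos p] at h1; simp at h1
      · rw [if_neg p, Finset.mem_singleton] at h1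
        exact ⟨k, ⟨Or.inr (Or.inr (Or.inl rfl)), hk.2 p⟩, h1.symm⟩
    · by_cases p : p4
      · rw [if_pos p] at h1; simp at h1
      · rw [if_neg p, Finset.mem_singleton] at h1
        exact ⟨l, ⟨Or.inr (Or.inr (Or.inr rfl)), hl.2 p⟩, h1.symm⟩

/-! ### An acute vertex can be cut off -/

theorem norm_le_quad {d : ℝ} (hd : 0 < d) (x : ℂ) : ‖x‖ ≤ (‖x‖ ^ 2 + d ^ 2) / (2 * d) := by
  rw [le_div_iff₀ (by positivity)]
  nlinarith [sq_nonneg (‖x‖ - d)]

theorem obt {X : Finset HP} (hX : Pg X) (hV : VxxStatement) {i j : HP} {v w : ℂ}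
    (hv : VxOf X i j v) (hi : ip i.1 w < i.2) (hj : ip j.1 w < j.2)
    (hij : ip i.1 j.1 < 0) : ∃ v1 ∈ Cl X, ∃ v2 ∈ Cl X, ip i.1 v1 = i.2 ∧ ip j.1 v2 = j.2 ∧
      ‖v1 - v2‖ + ‖v2 - w‖ + ‖w - v1‖ < 2 * ‖v - w‖ := by
  obtain ⟨V1, V2, -, -, V5, -⟩ := hV X hX
  have hdt := (V5 i j v hv).2.2
  have ui := hX.unit i hv.mem₁
  have uj := hX.unit j hv.mem₂
  have hvw : v ≠ w := by
    rintro rfl
    rw [hv.on₁] at hi
    exact lt_irrefl _ hi
  have hd : 0 < ‖w - v‖ := norm_pos_iff.2 (sub_ne_zero.2 hvw.symm)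
  set d := ‖w - v‖ with hd_def
  set c := ip i.1 j.1 with hc
  set D := 1 - c ^ 2 with hD
  have hDdt : D = dt i.1 j.1 ^ 2 := by
    have := ip_sq_add_dt_sq i.1 j.1
    rw [ui, uj] at this
    rw [hD, hc]; linarith
  have hD0 : 0 < D := by rw [hDdt]; positivity
  set A := -ip i.1 (w - v) with hA
  set B := -ip j.1 (w - v) with hB
  have hA0 : 0 < A := by
    rw [hA, H69.ip_sub_right, hv.on₁]; linarith
  have hB0 : 0 < B := by
    rw [hB, H69.ip_sub_right, hv.on₂]; linarith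
  have hAB : A ^ 2 + B ^ 2 - 2 * c * (A * B) = D * d ^ 2 := by
    have h1 := dt_mul_dt i.1 (w - v) i.1 (w - v)
    have h2 := dt_mul_dt j.1 (w - v) j.1 (w - v)
    have h3 := dt_mul_dt i.1 (w - v) j.1 (w - v)
    have h4 : dt i.1 j.1 * ip (w - v) (w - v)
        = ip i.1 (w - v) * dt (w - v) j.1 + dt i.1 (w - v) * ip (w - v) j.1 := by
      simp only [dt, ip]; ring
    have e1 : ip (w - v) j.1 = -B := by rw [ip_comm, hB]; ring
    have e2 : dt (w - v) j.1 = -dt j.1 (w - v) := dt_comm _ _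
    have e3 : ip i.1 (w - v) = -A := by rw [hA]; ring
    have e4 : ip j.1 (w - v) = -B := by rw [hB]; ring
    have e5 : ip (w - v) i.1 = -A := by rw [ip_comm, hA]; ring
    rw [ip_self, ui] at h1
    rw [ip_self, uj] at h2
    rw [ip_self] at h1 h2
    rw [ip_self] at h3 h4
    rw [e3, e5] at h1
    rw [e4, e1] at h2
    rw [e3, e1] at h3
    rw [e3, e2, e1] at h4
    rw [← hc] at h3
    rw [← hd_def] at h1 h2 h3 h4
    have h5 : D * d ^ 2 * d ^ 2 = (dt i.1 j.1 * d ^ 2) ^ 2 := by rw [hDdt]; ring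
    have h6 : (A ^ 2 + B ^ 2 - 2 * c * (A * B)) * d ^ 2 = D * d ^ 2 * d ^ 2 := by
      rw [h5, h4]
      linear_combination (-A ^ 2) * h2 + (-B ^ 2) * h1 + (2 * A * B) * h3
    have h7 : d ^ 2 ≠ 0 := by positivity
    exact mul_right_cancel₀ h7 h6
  -- directions along the sides
  set T := ((c : ℝ) : ℂ) * i.1 - j.1 with hT
  set T' := ((c : ℝ) : ℂ) * j.1 - i.1 with hT'
  have iT : ip i.1 T = 0 := by
    rw [hT, H69.ip_sub_right, H69.ip_smul_right, ip_self, ui, ← hc]; ring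
  have jT : ip j.1 T = -D := by
    rw [hT, H69.ip_sub_right, H69.ip_smul_right, ip_self, uj, ip_comm j.1 i.1, ← hc, hD]; ring
  have jT' : ip j.1 T' = 0 := by
    rw [hT', H69.ip_sub_right, H69.ip_smul_right, ip_self, uj, ip_comm j.1 i.1, ← hc]; ring
  have iT' : ip i.1 T' = -D := by
    rw [hT', H69.ip_sub_right, H69.ip_smul_right, ip_self, ui, ← hc, hD]; ring
  have TT : ‖T‖ ^ 2 = D := by
    rw [← ip_self]
    nth_rw 1 [hT]
    rw [H69.ip_sub_left, H69.ip_smul_left, iT, jT]; ring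
  have TT' : ‖T'‖ ^ 2 = D := by
    rw [← ip_self]
    nth_rw 1 [hT']
    rw [H69.ip_sub_left, H69.ip_smul_left, iT', jT']; ring
  have TcT : ip T T' = -(c * D) := by
    nth_rw 1 [hT]
    rw [H69.ip_sub_left, H69.ip_smul_left, iT', jT']; ring
  have eT : ip (w - v) T = B - c * A := by
    rw [hT, H69.ip_sub_right, H69.ip_smul_right, ip_comm (w - v), ip_comm (w - v), hA, hB]; ring
  have eT' : ip (w - v) T' = A - c * B := by
    rw [hT', H69.ip_sub_right, H69.ip_smul_right, ip_comm (w - v), ip_comm (w - v), hA, hB]; ring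
  have hon : ∀ r ∈ X, ip r.1 v = r.2 → r = i ∨ r = j := fun r hr h => V1 i j v hv r hr h
  obtain ⟨ε1, hε1, S1⟩ := stay (X := X) (v := v) (t := ((B : ℝ) : ℂ) * T) hv.cl (by
    intro r hr hrv
    rcases hon r hr hrv with rfl | rfl
    · rw [H69.ip_smul_right, iT]; simp
    · rw [H69.ip_smul_right, jT]; nlinarith only [hB0, hDdt])
  obtain ⟨ε2, hε2, S2⟩ := stay (X := X) (v := v) (t := ((A : ℝ) : ℂ) * T') hv.cl (by
    intro r hr hrv
    rcases hon r hr hrv with rfl | rfl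
    · rw [H69.ip_smul_right, iT']; nlinarith only [hA0, hDdt]
    · rw [H69.ip_smul_right, jT']; simp)
  -- the first order gain
  set R := ‖((B : ℝ) : ℂ) * T - ((A : ℝ) : ℂ) * T'‖ with hR
  have hR2 : R ^ 2 = D * (D * d ^ 2 + 4 * (A * B) * c) := by
    rw [hR, norm_sq_sub, norm_mul, norm_mul, Complex.norm_real, Complex.norm_real,
      H69.ip_smul_left, H69.ip_smul_right, TcT, mul_pow, mul_pow, TT, TT', Real.norm_eq_abs,
      Real.norm_eq_abs, sq_abs, sq_abs, ← hAB]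
    ring
  have hRlt : R < D * d := by
    have h1 : R ^ 2 < (D * d) ^ 2 := by
      rw [hR2]
      have : D * (4 * (A * B) * c) < 0 := by
        have : 0 < D * (A * B) := mul_pos hD0 (mul_pos hA0 hB0)
        nlinarith only [hij, this]
      linarith only [this]
    exact lt_of_pow_lt_pow_left₀ 2 (mul_pos hD0 hd).le h1
  set Q := (A ^ 2 + B ^ 2) * D / (2 * d) with hQ
  have hQ0 : 0 < Q := by
    rw [hQ]; exact div_pos (mul_pos (by positivity) hD0) (by linarith)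
  obtain ⟨τ, hτ0, hτ⟩ : ∃ τ : ℝ, 0 < τ ∧ τ < ε1 ∧ τ < ε2 ∧ τ * Q < D * d - R := by
    have h1 : 0 < (D * d - R) / Q := div_pos (by linarith) hQ0
    refine ⟨min (min ε1 ε2) ((D * d - R) / Q) / 2, ?_, ?_, ?_, ?_⟩
    · have : 0 < min (min ε1 ε2) ((D * d - R) / Q) := lt_min (lt_min hε1 hε2) h1
      linarith
    · have := min_le_left (min ε1 ε2) ((D * d - R) / Q)
      have := min_le_left ε1 ε2
      have : 0 < min (min ε1 ε2) ((D * d - R) / Q) := lt_min (lt_min hε1 hε2) h1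
      linarith
    · have := min_le_left (min ε1 ε2) ((D * d - R) / Q)
      have := min_le_right ε1 ε2
      have : 0 < min (min ε1 ε2) ((D * d - R) / Q) := lt_min (lt_min hε1 hε2) h1
      linarith
    · have h2 := min_le_right (min ε1 ε2) ((D * d - R) / Q)
      have h3 : 0 < min (min ε1 ε2) ((D * d - R) / Q) := lt_min (lt_min hε1 hε2) h1
      have h4 : min (min ε1 ε2) ((D * d - R) / Q) / 2 < (D * d - R) / Q := by linarith
      calc _ < (D * d - R) / Q * Q := mul_lt_mul_of_pos_right h4 hQ0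
        _ = D * d - R := div_mul_cancel₀ _ hQ0.ne'
  refine ⟨v + (τ : ℂ) * (((B : ℝ) : ℂ) * T), S1 τ hτ0.le hτ.1,
    v + (τ : ℂ) * (((A : ℝ) : ℂ) * T'), S2 τ hτ0.le hτ.2.1, ?_, ?_, ?_⟩
  · rw [H69.ip_add_right, H69.ip_smul_right, H69.ip_smul_right, iT, hv.on₁]; ring
  · rw [H69.ip_add_right, H69.ip_smul_right, H69.ip_smul_right, jT', hv.on₂]; ring
  · have n1 : ‖v + (τ : ℂ) * (((B : ℝ) : ℂ) * T) - (v + (τ : ℂ) * (((A : ℝ) : ℂ) * T'))‖
        = τ * R := by
      have : v + (τ : ℂ) * (((B : ℝ) : ℂ) * T) - (v + (τ : ℂ) * (((A : ℝ) : ℂ) * T'))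
          = (τ : ℂ) * (((B : ℝ) : ℂ) * T - ((A : ℝ) : ℂ) * T') := by ring
      rw [this, norm_mul, Complex.norm_real, Real.norm_eq_abs, abs_of_pos hτ0]
    have n2 : ‖w - (v + (τ : ℂ) * (((B : ℝ) : ℂ) * T))‖
        ≤ d - τ * B * (B - c * A) / d + τ ^ 2 * B ^ 2 * D / (2 * d) := by
      have e : w - (v + (τ : ℂ) * (((B : ℝ) : ℂ) * T)) = (w - v) - ((τ * B : ℝ) : ℂ) * T := by
        push_cast; ring
      rw [e]
      refine (norm_le_quad hd _).trans (le_of_eq ?_)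
      rw [norm_sq_sub, norm_mul, Complex.norm_real, H69.ip_smul_right, eT, mul_pow, TT,
        Real.norm_eq_abs, sq_abs, ← hd_def]
      field_simp
      ring
    have n3 : ‖v + (τ : ℂ) * (((A : ℝ) : ℂ) * T') - w‖
        ≤ d - τ * A * (A - c * B) / d + τ ^ 2 * A ^ 2 * D / (2 * d) := by
      rw [norm_sub_rev]
      have e : w - (v + (τ : ℂ) * (((A : ℝ) : ℂ) * T')) = (w - v) - ((τ * A : ℝ) : ℂ) * T' := by
        push_cast; ring
      rw [e]
      refine (norm_le_quad hd _).trans (le_of_eq ?_)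
      rw [norm_sq_sub, norm_mul, Complex.norm_real, H69.ip_smul_right, eT', mul_pow, TT',
        Real.norm_eq_abs, sq_abs, ← hd_def]
      field_simp
      ring
    have e1 : τ * B * (B - c * A) / d + τ * A * (A - c * B) / d = τ * (D * d) := by
      have : τ * B * (B - c * A) / d + τ * A * (A - c * B) / d
          = τ * (A ^ 2 + B ^ 2 - 2 * c * (A * B)) / d := by ring
      rw [this, hAB]
      field_simp
    have e2 : τ ^ 2 * B ^ 2 * D / (2 * d) + τ ^ 2 * A ^ 2 * D / (2 * d) = τ * (τ * Q) := by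
      rw [hQ]; ring
    have e3 : τ * (τ * Q) < τ * (D * d - R) := mul_lt_mul_of_pos_left hτ.2.2 hτ0
    rw [n1, norm_sub_rev v w, ← hd_def]
    linarith

end Pool.Agent.XQ.H30
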