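import Pool.Agent.Helper35_XQ.Stmt

/-!
Squad XQ, Part A2: module LEN.
-/

set_option autoImplicit false

namespace Pool.Agent.XQ.GI.H30

open Complex Pool.Agent.H62T Pool.Agent.H60K

/-- module LEN -/
theorem len : LenStatement := by
  intro α b h1 h2 hb
  have hpi := Real.pi_pos
  set s := Real.sin α with hs
  set c := Real.cos α with hc
  have hs0 : 0 < s := Real.sin_pos_of_pos_of_lt_pi (by linarith) (by linarith)
  have hc0 : 0 < c := Real.cos_pos_of_mem_Ioo ⟨by linarith, h2⟩
  have hsc : s ^ 2 + c ^ 2 = 1 := Real.sin_sq_add_cos_sq α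
  have hc1 : c ≤ 1 / 2 := by
    rw [← Real.cos_pi_div_three]
    exact Real.cos_le_cos_of_nonneg_of_le_pi (by linarith) (by linarith) h1
  have hs1 : s < 1 := by nlinarith only [hsc, hc0]
  have e1 : Lq α b = b * s * (3 - 4 * c ^ 2) := by
    unfold Lq
    rw [Real.tan_eq_sin_div_cos, Real.cos_three_mul, ← hs, ← hc]
    field_simp
    ring
  have e2 : Real.cos (2 * α) = 1 - 2 * s ^ 2 := by
    rw [Real.cos_two_mul, ← hc]; linarith
  have h3 : 0 < 2 * s ^ 2 - 1 := by nlinarith only [hsc, hc1, hc0]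
  have e3 : -(2 * b * Real.sin α ^ 2 / Real.cos (2 * α)) = 2 * b * s ^ 2 / (2 * s ^ 2 - 1) := by
    rw [e2, ← hs, ← neg_div_neg_eq (2 * b * s ^ 2) (2 * s ^ 2 - 1), neg_div]
    congr 2
    ring
  have hla : La α b = 2 * b * s := rfl
  have hlo : lo α b = 2 * b * s ^ 2 := rfl
  have hbs : 0 < b * s := mul_pos hb hs0
  have i1 : La α b ≤ Lq α b := by
    rw [e1, hla]
    have h5 : 0 ≤ 1 - 4 * c ^ 2 := by nlinarith only [hc1, hc0]
    linarith only [mul_nonneg hbs.le h5]
  have i2 : La α b ≤ -(2 * b * Real.sin α ^ 2 / Real.cos (2 * α)) := by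
    rw [e3, hla, le_div_iff₀ h3]
    have : 0 ≤ (1 - s) * (2 * s + 1) := mul_nonneg (by linarith) (by linarith)
    nlinarith only [hbs, this]
  refine ⟨by rw [hla]; linarith, by rw [hla, hlo]; nlinarith only [hs1, hbs], le_min i1 i2, min_le_left _ _, ?_,
    fun h4 => ?_⟩
  · unfold Lq
    have h5 : 0 < Real.tan α := Real.tan_pos_of_pos_of_lt_pi_div_two (by linarith) h2
    have h6 : 0 < b * Real.tan α := mul_pos hb h5
    nlinarith only [h6, Real.neg_one_le_cos (3 * α)]
  · have hc2 : c < 1 / 2 := by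
      rw [← Real.cos_pi_div_three]
      exact Real.cos_lt_cos_of_nonneg_of_le_pi (by linarith) (by linarith) h4
    refine lt_min ?_ ?_
    · rw [e1, hla]
      have h5 : 0 < 1 - 4 * c ^ 2 := by nlinarith only [hc2, hc0]
      linarith only [mul_pos hbs h5]
    · rw [e3, hla, lt_div_iff₀ h3]
      have : 0 < (1 - s) * (2 * s + 1) := mul_pos (by linarith) (by linarith)
      nlinarith only [hbs, this]

end Pool.Agent.XQ.GI.H30
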