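import Pool.Agent.Helper30_XQ.Geo

/-!
Squad XQ, Part G: module TO3.
-/

set_option autoImplicit false

namespace Pool.Agent.XQ.H30

open MeasureTheory Complex Filter Topology Pool.Agent.H62T
open Pool.Agent.H16F (Sublin)
open Pool.Agent.AEU
open Pool.Agent.AEU.H69 (ee ee_cont ee_per ee_add ee_pi norm_ee sub_ii lam_def mem_touch)

/-! ### Bodies spanned by two or three points -/

theorem pts2 {X S : Finset HP} {x y : ℂ} (hx : x ∈ Cl X) (hy : y ∈ Cl X)
    (hS : ∀ s ∈ S, s ∈ X ∧ (ip s.1 x = s.2 ∨ ip s.1 y = s.2)) :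
    Sublin (hf ![x, y]) ∧ Fits X (hf ![x, y]) ∧ S ⊆ touch X (hf ![x, y]) := by
  have h := (H69.mixS X).2.2 1 ![x, y] (by
    intro i; fin_cases i
    · exact hx
    · exact hy)
  refine ⟨H69.sub_hf _, h.1, fun s hs => (h.2 s).2 ⟨(hS s hs).1, ?_⟩⟩
  rcases (hS s hs).2 with h1 | h1
  · exact ⟨0, h1⟩
  · exact ⟨1, h1⟩

theorem pts3 {X S : Finset HP} {x y z : ℂ} (hx : x ∈ Cl X) (hy : y ∈ Cl X) (hz : z ∈ Cl X)
    (hS : ∀ s ∈ S, s ∈ X ∧ (ip s.1 x = s.2 ∨ ip s.1 y = s.2 ∨ ip s.1 z = s.2)) :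
    Sublin (hf ![x, y, z]) ∧ Fits X (hf ![x, y, z]) ∧ S ⊆ touch X (hf ![x, y, z]) := by
  have h := (H69.mixS X).2.2 2 ![x, y, z] (by
    intro i; fin_cases i
    · exact hx
    · exact hy
    · exact hz)
  refine ⟨H69.sub_hf _, h.1, fun s hs => (h.2 s).2 ⟨(hS s hs).1, ?_⟩⟩
  rcases (hS s hs).2 with h1 | h1 | h1
  · exact ⟨0, h1⟩
  · exact ⟨1, h1⟩
  · exact ⟨2, h1⟩

theorem Ac_smul {r : ℝ} (hr : 0 < r) {e : ℂ} {i j : HP} : Ac ((r : ℂ) * e) i j ↔ Ac e i j := by
  unfold Ac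
  rw [H69.ip_smul_left, H69.ip_smul_left]
  constructor
  · intro h; nlinarith
  · intro h; nlinarith

/-- sliding the end `v` of a diagonal along an acute side -/
theorem slide2 (hS : SlxStatement) {X : Finset HP} (hX : Pg X) {i j : HP} {v w : ℂ}
    (hv : VxOf X j i v) (hw : w ∈ Cl X) (hne : w ≠ v) (hac : Ac (w - v) j i) :
    ∃ v' ∈ Cl X, ip j.1 v' = j.2 ∧ ‖v' - w‖ < ‖v - w‖ := by
  have hd : 0 < ‖w - v‖ := norm_pos_iff.2 (sub_ne_zero.2 hne)
  have key := (hS X hX j i v hv w hw w hw hne hne).2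
  have e : (w - v) / (‖w - v‖ : ℂ) + (w - v) / (‖w - v‖ : ℂ)
      = ((2 / ‖w - v‖ : ℝ) : ℂ) * (w - v) := by
    push_cast; ring
  rw [e, Ac_smul (by positivity)] at key
  obtain ⟨v', h1, -, h2, h3⟩ := key hac
  refine ⟨v', h1, h2, ?_⟩
  rw [norm_sub_rev w v', norm_sub_rev w v] at h3
  linarith

theorem touch3 (hV : VxxStatement) {X : Finset HP} (hX : Pg X) {h : ℂ → ℝ} {i j k l : HP}
    {v w : ℂ} (S : Sh3 X h i j k l v w) : touch X h = {i, j, k, l} := by
  obtain ⟨V1, -⟩ := hV X hX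
  have hb := (H69.mixS X).2.2 1 ![v, w] (by
    intro i; fin_cases i
    · exact S.vi.cl
    · exact S.wk.cl)
  ext s
  rw [S.body, hb.2]
  simp only [Finset.mem_insert, Finset.mem_singleton]
  constructor
  · rintro ⟨hs, a, ha⟩
    fin_cases a
    · rcases V1 i j v S.vi s hs ha with h1 | h1
      · exact Or.inl h1
      · exact Or.inr (Or.inl h1)
    · rcases V1 k l w S.wk s hs ha with h1 | h1
      · exact Or.inr (Or.inr (Or.inl h1))
      · exact Or.inr (Or.inr (Or.inr h1))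
  · rintro (h1 | h1 | h1 | h1)
    · subst h1; exact ⟨S.vi.mem₁, 0, S.vi.on₁⟩
    · subst h1; exact ⟨S.vi.mem₂, 0, S.vi.on₂⟩
    · subst h1; exact ⟨S.wk.mem₁, 1, S.wk.on₁⟩
    · subst h1; exact ⟨S.wk.mem₂, 1, S.wk.on₂⟩

/-- the conclusion of TO3 -/
def Con3 (X : Finset HP) (h : ℂ → ℝ) (i j k l : HP) (v w : ℂ) : Prop :=
  ∃ c : HP → ℝ, TornC X {i, j, k, l} h (lam h) c ∧
    Std3 {i, j, k, l} (Mm {i, j, k, l} c) (lam h) ∧ lam h = 2 * ‖v - w‖ ∧
    (0 < c j ↔ Ac (w - v) i j) ∧ (0 < c i ↔ Ac (w - v) j i) ∧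
    (0 < c l ↔ Ac (v - w) k l) ∧ (0 < c k ↔ Ac (v - w) l k)

section core

variable (hV : VxxStatement) (hS : SlxStatement) (hARC : ArcStatement) (hARZ : ArzStatement)
  {X : Finset HP} (hX : Pg X) {h : ℂ → ℝ} {i j k l : HP} {v w : ℂ}
  (S : Sh3 X h i j k l v w) (hm : MinF X h)

/-- the angle at the end `v` is not acute -/
theorem obt3 (hV : VxxStatement) (hX : Pg X) (S : Sh3 X h i j k l v w) (hm : MinF X h) :
    0 ≤ ip i.1 j.1 := by
  obtain ⟨-, V2, -⟩ := hV X hX
  by_contra h1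
  rw [not_le] at h1
  obtain ⟨n1, n2, n3, n4, n5, n6⟩ := S.ne
  have hi : ip i.1 w < i.2 := V2 k l w S.wk i S.vi.mem₁ n2 n3
  have hj : ip j.1 w < j.2 := V2 k l w S.wk j S.vi.mem₂ n4 n5
  obtain ⟨v1, c1, v2, c2, o1, o2, hlt⟩ := obt hX hV S.vi hi hj h1
  have hb := pts3 (S := touch X h) c1 c2 S.wk.cl (by
    rw [touch3 hV hX S]
    intro s hs
    simp only [Finset.mem_insert, Finset.mem_singleton] at hs
    rcases hs with h1 | h1 | h1 | h1
    · subst h1; exact ⟨S.vi.mem₁, Or.inl o1⟩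
    · subst h1; exact ⟨S.vi.mem₂, Or.inr (Or.inl o2)⟩
    · subst h1; exact ⟨S.wk.mem₁, Or.inr (Or.inr S.wk.on₁)⟩
    · subst h1; exact ⟨S.wk.mem₂, Or.inr (Or.inr S.wk.on₂)⟩)
  have h2 := hm _ hb.1 hb.2.1 hb.2.2
  rw [H69.lam3, S.body, H69.lam2] at h2
  linarith

theorem swap3 (S : Sh3 X h i j k l v w) : Sh3 X h k l i j w v := by
  obtain ⟨n1, n2, n3, n4, n5, n6⟩ := S.ne
  refine ⟨S.wk, S.vi, ⟨n6, n2.symm, n4.symm, n3.symm, n5.symm, n1⟩, ?_⟩
  rw [S.body]
  funext z
  rw [H69.hf2, H69.hf2, max_comm]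

theorem swapi (S : Sh3 X h i j k l v w) : Sh3 X h j i k l v w := by
  obtain ⟨n1, n2, n3, n4, n5, n6⟩ := S.ne
  exact ⟨⟨S.vi.cl, S.vi.mem₂, S.vi.mem₁, n1.symm, S.vi.on₂, S.vi.on₁⟩, S.wk,
    ⟨n1.symm, n4, n5, n2, n3, n6⟩, S.body⟩

theorem swapk (S : Sh3 X h i j k l v w) : Sh3 X h i j l k v w := by
  obtain ⟨n1, n2, n3, n4, n5, n6⟩ := S.ne
  exact ⟨S.vi, ⟨S.wk.cl, S.wk.mem₂, S.wk.mem₁, n6.symm, S.wk.on₂, S.wk.on₁⟩,
    ⟨n1, n3, n2, n5, n4, n6.symm⟩, S.body⟩

theorem swapi_set : ({j, i, k, l} : Finset HP) = {i, j, k, l} := Finset.insert_comm _ _ _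

theorem swapk_set : ({i, j, l, k} : Finset HP) = {i, j, k, l} := by
  congr 1
  congr 1
  exact Finset.pair_comm _ _

theorem con_swapi (H : Con3 X h j i k l v w) : Con3 X h i j k l v w := by
  obtain ⟨c, h1, h2, h3, h4, h5, h6, h7⟩ := H
  rw [swapi_set] at h1 h2
  exact ⟨c, h1, h2, h3, h5, h4, h6, h7⟩

theorem con_swapk (H : Con3 X h i j l k v w) : Con3 X h i j k l v w := by
  obtain ⟨c, h1, h2, h3, h4, h5, h6, h7⟩ := H
  rw [swapk_set] at h1 h2
  exact ⟨c, h1, h2, h3, h4, h5, h7, h6⟩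

include hV hS hARC hARZ hX S hm

theorem core3 (np : Np {i, j, k, l}) (di : ip (w - v) (I * i.1) ≠ 0)
    (dj : ip (w - v) (I * j.1) ≠ 0) (dk : ip (w - v) (I * k.1) ≠ 0)
    (dl : ip (w - v) (I * l.1) ≠ 0) (nij : ip i.1 j.1 ≠ 0) (nkl : ip k.1 l.1 ≠ 0)
    (o1 : 0 < dt i.1 j.1) (o2 : dt k.1 l.1 < 0) : Con3 X h i j k l v w := by
  classical
  have hpi := Real.pi_pos
  have hT := touch3 hV hX S
  have pij : 0 < ip i.1 j.1 := lt_of_le_of_ne (obt3 hV hX S hm) nij.symm
  have pkl : 0 < ip k.1 l.1 := lt_of_le_of_ne (obt3 hV hX (swap3 S) hm) nkl.symm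
  obtain ⟨V1, V2, -⟩ := hV X hX
  have ne := S.ne
  obtain ⟨n1, n2, n3, n4, n5, n6⟩ := S.ne
  have hi : ip i.1 w < i.2 := V2 k l w S.wk i S.vi.mem₁ n2 n3
  have hj : ip j.1 w < j.2 := V2 k l w S.wk j S.vi.mem₂ n4 n5
  have hk : ip k.1 v < k.2 := V2 i j v S.vi k S.wk.mem₁ n2.symm n4.symm
  have hl : ip l.1 v < l.2 := V2 i j v S.vi l S.wk.mem₂ n3.symm n5.symm
  have ui := hX.unit i S.vi.mem₁
  have uj := hX.unit j S.vi.mem₂
  have uk := hX.unit k S.wk.mem₁
  have ul := hX.unit l S.wk.mem₂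
  have hvw : v ≠ w := by
    rintro rfl
    rw [S.vi.on₁] at hi
    exact lt_irrefl _ hi
  have hd : 0 < ‖v - w‖ := norm_pos_iff.2 (sub_ne_zero.2 hvw)
  obtain ⟨ψ, -, hψ⟩ := exists_ee (H72.norm_unit (sub_ne_zero.2 hvw)) 0
  set d := ‖v - w‖ with hd_def
  set n := ee ψ with hn
  have un : ‖n‖ = 1 := norm_ee ψ
  have hvwn : v - w = (d : ℂ) * n := by
    rw [← hψ]
    have : (d : ℂ) ≠ 0 := by exact_mod_cast hd.ne'
    field_simp
  have hwvn : w - v = ((-d : ℝ) : ℂ) * n := by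
    rw [← neg_sub, hvwn]; push_cast; ring
  have hnpi : ee (ψ + Real.pi) = -n := ee_pi ψ
  -- positions of the normals
  have ipin : 0 < ip i.1 n := by
    have h1 : ip i.1 (v - w) = d * ip i.1 n := by rw [hvwn, H69.ip_smul_right]
    rw [H69.ip_sub_right, S.vi.on₁] at h1
    by_contra h2
    rw [not_lt] at h2
    nlinarith
  have ipjn : 0 < ip j.1 n := by
    have h1 : ip j.1 (v - w) = d * ip j.1 n := by rw [hvwn, H69.ip_smul_right]
    rw [H69.ip_sub_right, S.vi.on₂] at h1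
    by_contra h2
    rw [not_lt] at h2
    nlinarith
  have ipkn : ip k.1 n < 0 := by
    have h1 : ip k.1 (v - w) = d * ip k.1 n := by rw [hvwn, H69.ip_smul_right]
    rw [H69.ip_sub_right, S.wk.on₁] at h1
    by_contra h2
    rw [not_lt] at h2
    nlinarith
  have ipln : ip l.1 n < 0 := by
    have h1 : ip l.1 (v - w) = d * ip l.1 n := by rw [hvwn, H69.ip_smul_right]
    rw [H69.ip_sub_right, S.wk.on₂] at h1
    by_contra h2
    rw [not_lt] at h2
    nlinarith
  have dtn : ∀ s : HP, ip (w - v) (I * s.1) ≠ 0 → dt n s.1 ≠ 0 := by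
    intro s hs h0
    apply hs
    rw [hwvn, H69.ip_smul_left, ip_I_right, h0]; simp
  have dni := dtn i di
  have dnj := dtn j dj
  have dnk := dtn k dk
  have dnl := dtn l dl
  have sw : ∀ a b : ℂ, dt a b = -dt b a := dt_comm
  have din : dt i.1 n ≠ 0 := by rw [sw]; exact neg_ne_zero.2 dni
  have dkn : dt k.1 n ≠ 0 := by rw [sw]; exact neg_ne_zero.2 dnk
  -- the coefficients
  set c : HP → ℝ := fun s => if s = i then 2 * dt n j.1 / dt i.1 j.1
    else if s = j then 2 * dt i.1 n / dt i.1 j.1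
    else if s = k then -(2 * dt n l.1 / dt k.1 l.1) else -(2 * dt k.1 n / dt k.1 l.1) with hc
  have ci : c i = 2 * dt n j.1 / dt i.1 j.1 := by simp only [hc, if_pos]
  have cj : c j = 2 * dt i.1 n / dt i.1 j.1 := (if_neg n1.symm).trans (if_pos rfl)
  have ck : c k = -(2 * dt n l.1 / dt k.1 l.1) :=
    (if_neg n2.symm).trans ((if_neg n4.symm).trans (if_pos rfl))
  have cl : c l = -(2 * dt k.1 n / dt k.1 l.1) :=
    (if_neg n3.symm).trans ((if_neg n5.symm).trans (if_neg n6.symm))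
  clear_value c
  have dep1 : (c i : ℂ) * i.1 + (c j : ℂ) * j.1 = 2 * n := by
    rw [ci, cj]; exact cramer o1.ne' n
  have dep2 : (c k : ℂ) * k.1 + (c l : ℂ) * l.1 = 2 * ee (ψ + Real.pi) := by
    have := cramer o2.ne n
    rw [hnpi, ck, cl]
    push_cast at this ⊢
    linear_combination -this
  have ci0 : c i ≠ 0 := by
    rw [ci]; exact div_ne_zero (mul_ne_zero two_ne_zero dnj) o1.ne'
  have cj0 : c j ≠ 0 := by
    rw [cj]; exact div_ne_zero (mul_ne_zero two_ne_zero din) o1.ne'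
  have ck0 : c k ≠ 0 := by
    rw [ck]; exact neg_ne_zero.2 (div_ne_zero (mul_ne_zero two_ne_zero dnl) o2.ne)
  have cl0 : c l ≠ 0 := by
    rw [cl]; exact neg_ne_zero.2 (div_ne_zero (mul_ne_zero two_ne_zero dkn) o2.ne)
  have hlam : lam h = 2 * d := by rw [S.body, H69.lam2]
  have hval : ∑ s ∈ ({i, j, k, l} : Finset HP), c s * s.2 = 2 * d := by
    rw [sum4 ne]
    have e1 : c i * i.2 + c j * j.2 = ip (2 * n) v := by
      rw [← dep1, H69.ip_add_left, H69.ip_smul_left, H69.ip_smul_left, S.vi.on₁, S.vi.on₂]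
    have e2 : c k * k.2 + c l * l.2 = ip (2 * ee (ψ + Real.pi)) w := by
      rw [← dep2, H69.ip_add_left, H69.ip_smul_left, H69.ip_smul_left, S.wk.on₁, S.wk.on₂]
    rw [e1, e2, hnpi]
    have e3 : ip (2 * n) v + ip (2 * -n) w = 2 * ip n (v - w) := by
      have h1 := H69.ip_smul_left 2 n v
      have h2 := H69.ip_smul_left 2 (-n) w
      push_cast at h1 h2
      rw [h1, h2, H69.ip_neg_left, H69.ip_sub_right]; ring
    rw [e3, hvwn, H69.ip_smul_right, ip_self, un]; ring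
  -- the certificate, for an arbitrary body
  have cert : ∀ h' : ℂ → ℝ, Sublin h' →
      (c i * h' i.1 + c j * h' j.1
        ≤ ∫ θ in (ψ - Real.pi / 2)..(ψ + Real.pi / 2), h' (ee θ)) ∧
      (c k * h' k.1 + c l * h' l.1
        ≤ ∫ θ in (ψ + Real.pi - Real.pi / 2)..(ψ + Real.pi + Real.pi / 2), h' (ee θ)) ∧
      lam h' = (∫ θ in (ψ - Real.pi / 2)..(ψ + Real.pi / 2), h' (ee θ)) +
        ∫ θ in (ψ + Real.pi - Real.pi / 2)..(ψ + Real.pi + Real.pi / 2), h' (ee θ) := by
    intro h' hh'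
    refine ⟨(half hARC hARZ hh' ui uj ipin ipjn dep1 ci0 cj0 pij o1.ne').1,
      (half hARC hARZ hh' uk ul (by rw [hnpi, H69.ip_neg_right]; linarith)
        (by rw [hnpi, H69.ip_neg_right]; linarith) dep2 ck0 cl0 pkl o2.ne).1, ?_⟩
    rw [lam_arc h' (ψ - Real.pi / 2)]
    have e1 : ψ + Real.pi - Real.pi / 2 = ψ + Real.pi / 2 := by ring
    have e2 : ψ + Real.pi + Real.pi / 2 = ψ - Real.pi / 2 + 2 * Real.pi := by ring
    rw [e1, e2]
    exact (intervalIntegral.integral_add_adjacent_intervals (sub_ii hh' _ _)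
      (sub_ii hh' _ _)).symm
  have hcert : ∀ h' : ℂ → ℝ, Sublin h' →
      ∑ s ∈ ({i, j, k, l} : Finset HP), c s * h' s.1 ≤ lam h' := by
    intro h' hh'
    rw [sum4 ne]
    obtain ⟨h1, h2, h3⟩ := cert h' hh'
    linarith
  -- equality
  have eqc : ∀ h' : ℂ → ℝ, Sublin h' →
      (∀ s ∈ ({i, j, k, l} : Finset HP), 0 ≤ c s * (h' s.1 - s.2)) → lam h' ≤ 2 * d →
      (∀ θ ∈ Set.Icc (ψ - Real.pi / 2) (ψ + Real.pi / 2), h' (ee θ) = ip (ee θ) v) ∧
      ∀ θ ∈ Set.Icc (ψ + Real.pi - Real.pi / 2) (ψ + Real.pi + Real.pi / 2),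
        h' (ee θ) = ip (ee θ) w := by
    intro h' hh' hs hl'
    obtain ⟨h1, h2, h3⟩ := cert h' hh'
    have hsum : ∑ s ∈ ({i, j, k, l} : Finset HP), c s * (h' s.1 - s.2) ≤ 0 := by
      have : ∑ s ∈ ({i, j, k, l} : Finset HP), c s * (h' s.1 - s.2)
          = ∑ s ∈ ({i, j, k, l} : Finset HP), c s * h' s.1
            - ∑ s ∈ ({i, j, k, l} : Finset HP), c s * s.2 := by
        rw [← Finset.sum_sub_distrib]
        exact Finset.sum_congr rfl fun s _ => by ring
      rw [this, hval]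
      linarith [hcert h' hh']
    have hz : ∀ s ∈ ({i, j, k, l} : Finset HP), c s * (h' s.1 - s.2) = 0 :=
      (Finset.sum_eq_zero_iff_of_nonneg hs).1 (le_antisymm hsum (Finset.sum_nonneg hs))
    have hst : ∀ s ∈ ({i, j, k, l} : Finset HP), c s ≠ 0 → h' s.1 = s.2 := by
      intro s hs h0
      have := (mul_eq_zero.1 (hz s hs)).resolve_left h0
      linarith
    have ti := hst i (by simp) ci0
    have tj := hst j (by simp) cj0
    have tk := hst k (by simp) ck0
    have tl := hst l (by simp) cl0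
    rw [sum4 ne] at hval
    rw [ti, tj] at h1
    rw [tk, tl] at h2
    have q1 := (half hARC hARZ hh' ui uj ipin ipjn dep1 ci0 cj0 pij o1.ne').2 (by
      rw [ti, tj]; linarith)
    have q2 := (half hARC hARZ hh' uk ul (by rw [hnpi, H69.ip_neg_right]; linarith)
        (by rw [hnpi, H69.ip_neg_right]; linarith) dep2 ck0 cl0 pkl o2.ne).2 (by
      rw [tk, tl]; linarith)
    obtain ⟨y1, -, hy1⟩ := q1
    obtain ⟨y2, -, hy2⟩ := q2
    have g : ∀ (s : HP) (y x : ℂ) (φ : ℝ), ‖s.1‖ = 1 → 0 ≤ ip s.1 (ee φ) →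
        (∀ θ ∈ Set.Icc (φ - Real.pi / 2) (φ + Real.pi / 2), h' (ee θ) = ip (ee θ) y) →
        h' s.1 = s.2 → ip s.1 x = s.2 → ip s.1 y = ip s.1 x := by
      intro s y x φ us hs hy hs2 hx
      obtain ⟨θ, hθ, e⟩ := mem_half us hs
      have h4 := hy θ hθ
      rw [← e, hs2] at h4
      rw [← h4, hx]
    have e1 : y1 = v := H40.eq_of_ip o1.ne' (g i y1 v ψ ui ipin.le hy1 ti S.vi.on₁)
      (g j y1 v ψ uj ipjn.le hy1 tj S.vi.on₂)
    have e2 : y2 = w := H40.eq_of_ip o2.ne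
      (g k y2 w (ψ + Real.pi) uk (by rw [hnpi, H69.ip_neg_right]; linarith) hy2 tk S.wk.on₁)
      (g l y2 w (ψ + Real.pi) ul (by rw [hnpi, H69.ip_neg_right]; linarith) hy2 tl S.wk.on₂)
    rw [e1] at hy1
    rw [e2] at hy2
    exact ⟨hy1, hy2⟩
  have hfit := (pts2 (S := ∅) S.vi.cl S.wk.cl (by simp)).2.1
  rw [← S.body] at hfit
  have hsub : Sublin h := by rw [S.body]; exact H69.sub_hf _
  have tE : ∀ s ∈ ({i, j, k, l} : Finset HP), h s.1 = s.2 := by
    intro s hs
    rw [← hT] at hs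
    exact (mem_touch.1 hs).2
  have hK := eqc h hsub (fun s hs => by rw [tE s hs]; simp) hlam.le
  -- the signs
  have bc : ∀ a b : ℂ, ‖a‖ = 1 → dt a n * dt a b = ip n b - ip a b * ip a n := by
    intro a b ha
    rw [dt_mul_dt, ip_self, ha, ip_comm n a]; ring
  have sgn1 : ∀ {x y : ℝ}, y ≠ 0 → (0 < 2 * x / y ↔ 0 < x * y) := by
    intro x y hy
    have hy2 : 0 < y ^ 2 := by positivity
    have e : 2 * x / y = 2 * (x * y) / y ^ 2 := by field_simp
    rw [e, lt_div_iff₀ hy2]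
    constructor <;> intro h <;> nlinarith
  have acv : ∀ a b : HP, ‖a.1‖ = 1 → (Ac (w - v) a b ↔ 0 < dt a.1 n * dt a.1 b.1) := by
    intro a b ha
    rw [bc _ _ ha]
    unfold Ac
    rw [hwvn, H69.ip_smul_left, H69.ip_smul_left, ip_comm n a.1]
    constructor <;> intro h <;> nlinarith
  have acw : ∀ a b : HP, ‖a.1‖ = 1 → (Ac (v - w) a b ↔ dt a.1 n * dt a.1 b.1 < 0) := by
    intro a b ha
    rw [bc _ _ ha]
    unfold Ac
    rw [hvwn, H69.ip_smul_left, H69.ip_smul_left, ip_comm n a.1]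
    constructor <;> intro h <;> nlinarith
  have sj : 0 < c j ↔ Ac (w - v) i j := by
    rw [cj, sgn1 o1.ne', acv i j ui]
  have si : 0 < c i ↔ Ac (w - v) j i := by
    rw [ci, sgn1 o1.ne', acv j i uj, sw j.1 n, sw j.1 i.1, neg_mul_neg]
  have sgn2 : ∀ {x y : ℝ}, y ≠ 0 → (0 < -(2 * x / y) ↔ x * y < 0) := by
    intro x y hy
    have := sgn1 (x := -x) hy
    rw [show -(2 * x / y) = 2 * (-x) / y by ring, this]
    constructor <;> intro h <;> linarith
  have sl : 0 < c l ↔ Ac (v - w) k l := by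
    rw [cl, sgn2 o2.ne, acw k l uk]
  have sk : 0 < c k ↔ Ac (v - w) l k := by
    rw [ck, sgn2 o2.ne, acw l k ul, sw l.1 n, sw l.1 k.1, neg_mul_neg]
  refine ⟨c, ?_, ?_, hlam, sj, si, sl, sk⟩
  · rw [hlam]
    refine ⟨card4 ne, np, hsub, hfit, hT, hlam, ?_, ?_, hcert, hval, ?_, ?_⟩
    · intro s hs
      simp only [Finset.mem_insert, Finset.mem_singleton] at hs
      rcases hs with h1 | h1 | h1 | h1 <;> rw [h1] <;> assumption
    · rw [sum4 ne, dep1, dep2, hnpi]; ring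
    · intro h' hh' hs hl'
      have hK' := eqc h' hh' hs hl'
      apply sub_ext hh' hsub (ψ - Real.pi / 2)
      intro θ hθ
      rcases le_total θ (ψ + Real.pi / 2) with h1 | h1
      · rw [hK'.1 θ ⟨hθ.1, h1⟩, hK.1 θ ⟨hθ.1, h1⟩]
      · have h2 : θ ∈ Set.Icc (ψ + Real.pi - Real.pi / 2) (ψ + Real.pi + Real.pi / 2) :=
          ⟨by linarith, by linarith [hθ.2]⟩
        rw [hK'.2 θ h2, hK.2 θ h2]
    · intro t ht hct
      simp only [Finset.mem_insert, Finset.mem_singleton] at ht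
      have fin : ∀ x ∈ Cl X, ∀ y ∈ Cl X, ‖x - y‖ < d →
          (∀ s ∈ ({i, j, k, l} : Finset HP), s ≠ t → ip s.1 x = s.2 ∨ ip s.1 y = s.2) →
          Lt X (({i, j, k, l} : Finset HP).erase t) (2 * d) := by
        intro x hx y hy hxy hs
        have hb := pts2 (S := ({i, j, k, l} : Finset HP).erase t) hx hy (by
          intro s hs1
          rw [Finset.mem_erase] at hs1
          refine ⟨?_, hs s hs1.2 hs1.1⟩
          rw [← hT] at hs1
          exact (mem_touch.1 hs1.2).1)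
        exact ⟨_, hb.1, hb.2.1, hb.2.2, by rw [H69.lam2]; linarith⟩
      have vij' : VxOf X j i v := (swapi S).vi
      have wkl' : VxOf X l k w := (swapk S).wk
      rcases ht with h1 | h1 | h1 | h1
      · subst h1
        obtain ⟨v', c1, c2, c3⟩ := slide2 hS hX vij' S.wk.cl hvw.symm (si.1 hct)
        refine fin v' c1 w S.wk.cl c3 fun s hs hst => ?_
        simp only [Finset.mem_insert, Finset.mem_singleton] at hs
        rcases hs with h2 | h2 | h2 | h2
        · exact absurd h2 hst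
        · subst h2; exact Or.inl c2
        · subst h2; exact Or.inr S.wk.on₁
        · subst h2; exact Or.inr S.wk.on₂
      · subst h1
        obtain ⟨v', c1, c2, c3⟩ := slide2 hS hX S.vi S.wk.cl hvw.symm (sj.1 hct)
        refine fin v' c1 w S.wk.cl c3 fun s hs hst => ?_
        simp only [Finset.mem_insert, Finset.mem_singleton] at hs
        rcases hs with h2 | h2 | h2 | h2
        · subst h2; exact Or.inl c2
        · exact absurd h2 hst
        · subst h2; exact Or.inr S.wk.on₁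
        · subst h2; exact Or.inr S.wk.on₂
      · subst h1
        obtain ⟨w', c1, c2, c3⟩ := slide2 hS hX wkl' S.vi.cl hvw (sk.1 hct)
        refine fin w' c1 v S.vi.cl (by rw [norm_sub_rev w v] at c3; exact c3) fun s hs hst => ?_
        simp only [Finset.mem_insert, Finset.mem_singleton] at hs
        rcases hs with h2 | h2 | h2 | h2
        · subst h2; exact Or.inr S.vi.on₁
        · subst h2; exact Or.inr S.vi.on₂
        · exact absurd h2 hst
        · subst h2; exact Or.inl c2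
      · subst h1
        obtain ⟨w', c1, c2, c3⟩ := slide2 hS hX S.wk S.vi.cl hvw (sl.1 hct)
        refine fin w' c1 v S.vi.cl (by rw [norm_sub_rev w v] at c3; exact c3) fun s hs hst => ?_
        simp only [Finset.mem_insert, Finset.mem_singleton] at hs
        rcases hs with h2 | h2 | h2 | h2
        · subst h2; exact Or.inr S.vi.on₁
        · subst h2; exact Or.inr S.vi.on₂
        · subst h2; exact Or.inl c2
        · exact absurd h2 hst
  · -- the standard form
    have un2 : ∀ s : ℂ, ‖s‖ = 1 → (dt n s) ^ 2 + (ip n s) ^ 2 = 1 := by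
      intro s hs
      have := ip_sq_add_dt_sq n s
      rw [un, hs] at this
      linarith
    -- `e = -n`
    obtain ⟨η1, a1, a2, a3, a4⟩ := angle (x := -dt n i.1) (y := ip n i.1)
      (by rw [neg_sq]; exact un2 _ ui) (by rw [ip_comm]; exact ipin)
    obtain ⟨η2, b1, b2, b3, b4⟩ := angle (x := dt n j.1) (y := ip n j.1)
      (un2 _ uj) (by rw [ip_comm]; exact ipjn)
    obtain ⟨ζ1, e1, e2, e3, e4⟩ := angle (x := -dt n k.1) (y := -ip n k.1)
      (by rw [neg_sq, neg_sq]; exact un2 _ uk) (by rw [ip_comm]; linarith)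
    obtain ⟨ζ2, f1, f2, f3, f4⟩ := angle (x := dt n l.1) (y := -ip n l.1)
      (by rw [neg_sq]; exact un2 _ ul) (by rw [ip_comm]; linarith)
    have nn : ip n n = 1 := by rw [ip_self, un]; norm_num
    have sA : Real.sin (η1 + η2) = dt i.1 j.1 := by
      rw [Real.sin_add, a3, a4, b3, b4]
      have := dt_mul_dt i.1 j.1 n n
      have id1 : dt i.1 j.1 * ip n n = ip n i.1 * dt n j.1 - dt n i.1 * ip n j.1 := by
        simp only [dt, ip]; ring
      rw [nn] at id1
      linarith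
    have cA : Real.cos (η1 + η2) = -ip i.1 j.1 := by
      rw [Real.cos_add, a3, a4, b3, b4]
      have id1 : ip i.1 j.1 * ip n n = ip n i.1 * ip n j.1 + dt n i.1 * dt n j.1 := by
        simp only [dt, ip]; ring
      rw [nn] at id1
      linarith
    have sB : Real.sin (ζ1 + ζ2) = -dt k.1 l.1 := by
      rw [Real.sin_add, e3, e4, f3, f4]
      have id1 : dt k.1 l.1 * ip n n = ip n k.1 * dt n l.1 - dt n k.1 * ip n l.1 := by
        simp only [dt, ip]; ring
      rw [nn] at id1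
      linarith
    have cB : Real.cos (ζ1 + ζ2) = -ip k.1 l.1 := by
      rw [Real.cos_add, e3, e4, f3, f4]
      have id1 : ip k.1 l.1 * ip n n = ip n k.1 * ip n l.1 + dt n k.1 * dt n l.1 := by
        simp only [dt, ip]; ring
      rw [nn] at id1
      linarith
    have qA := quad2 (x := η1 + η2) (by linarith) (by linarith) (by rw [sA]; exact o1)
      (by rw [cA]; linarith)
    have qB := quad2 (x := ζ1 + ζ2) (by linarith) (by linarith) (by rw [sB]; linarith)
      (by rw [cB]; linarith)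
    -- the isometry
    have ucn : ‖-(starRingEnd ℂ) n‖ = 1 := by rw [norm_neg, Complex.norm_conj, un]
    set U := H40.rot (-(starRingEnd ℂ) n) ucn with hU
    have Uap : ∀ z, U z = -(starRingEnd ℂ) n * z := H40.rot_apply _ _
    have Uip : ∀ z w, ip (U z) (U w) = ip z w := by
      intro z w
      rw [Uap, Uap]
      have id1 : ip (-(starRingEnd ℂ) n * z) (-(starRingEnd ℂ) n * w) = ip n n * ip z w := by
        simp only [ip, mul_re, mul_im, neg_re, neg_im, conj_re, conj_im]; ring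
      rw [id1, nn, one_mul]
    have Ure : ∀ z, U z = ((-ip n z : ℝ) : ℂ) + ((-dt n z : ℝ) : ℂ) * I := by
      intro z
      rw [Uap]
      apply Complex.ext
      · simp only [ip, mul_re, neg_re, neg_im, conj_re, conj_im, add_re, ofReal_re, ofReal_im,
          I_re, I_im]; ring
      · simp only [dt, mul_im, neg_re, neg_im, conj_re, conj_im, add_im, ofReal_re, ofReal_im,
          I_re, I_im]; ring
    set g := H40.iso U v 0 with hg
    have ex : ∀ t : ℝ, exp ((t : ℂ) * I) = (Real.cos t : ℂ) + (Real.sin t : ℂ) * I := by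
      intro t
      rw [Complex.exp_mul_I, ← Complex.ofReal_cos, ← Complex.ofReal_sin]
    have gi : mv g i = lnU η1 := by
      apply H40.mv_iso Uip
      · rw [Ure]
        unfold lnU
        rw [ex, a3, a4]
        apply Complex.ext
        · simp
        · simp
      · unfold lnU
        rw [S.vi.on₁, H69.ip_zero_right]; ring
    have gj : mv g j = lnD η2 := by
      apply H40.mv_iso Uip
      · rw [Ure]
        unfold lnD
        have := ex (-η2)
        push_cast at this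
        rw [neg_mul] at this
        simp only [Complex.cos_neg, Complex.sin_neg, ← Complex.ofReal_cos, ← Complex.ofReal_sin,
          b3, b4] at this
        rw [this]
        apply Complex.ext
        · simp
        · simp
      · unfold lnD
        rw [S.vi.on₂, H69.ip_zero_right]; ring
    have hUwv : U (w - v) = (d : ℂ) := by
      rw [hwvn, Uap]
      have id1 : -(starRingEnd ℂ) n * (((-d : ℝ) : ℂ) * n) = ((d * ip n n : ℝ) : ℂ) := by
        apply Complex.ext
        · simp only [ip, mul_re, mul_im, neg_re, neg_im, conj_re, conj_im, ofReal_re, ofReal_im]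
          ring
        · simp only [ip, mul_re, mul_im, neg_re, neg_im, conj_re, conj_im, ofReal_re, ofReal_im]
          ring
      rw [id1, nn, mul_one]
    have hsec : ∀ s : HP, ip s.1 w = s.2 → s.2 - ip s.1 v = ip (U s.1) d := by
      intro s hs
      rw [← hUwv, Uip, H69.ip_sub_right, hs]
    have gk : mv g k = lnN (Real.pi / 2 - ζ1) d := by
      have h1 : U k.1 = exp (((Real.pi / 2 - ζ1 : ℝ) : ℂ) * I) := by
        rw [Ure, ex, Real.cos_pi_div_two_sub, Real.sin_pi_div_two_sub, e3, e4]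
      apply H40.mv_iso Uip
      · exact h1
      · rw [hsec k S.wk.on₁]
        unfold lnN
        rw [h1, H69.ip_zero_right]; ring
    have gl : mv g l = lnN (-(Real.pi / 2 - ζ2)) d := by
      have h1 : U l.1 = exp (((-(Real.pi / 2 - ζ2) : ℝ) : ℂ) * I) := by
        rw [Ure, ex, Real.cos_neg, Real.sin_neg, Real.cos_pi_div_two_sub,
          Real.sin_pi_div_two_sub, f3, f4]
      apply H40.mv_iso Uip
      · exact h1
      · rw [hsec l S.wk.on₂]
        unfold lnN
        rw [h1, H69.ip_zero_right]; ring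
    have lt_iff : ∀ {x : ℝ}, x ≠ 0 → (x < 0 ↔ ¬ 0 < x) := by
      intro x hx
      constructor
      · intro h; exact not_lt.2 h.le
      · intro h; exact lt_of_le_of_ne (not_lt.1 h) hx
    have ncA : ∀ {x y : ℝ}, 0 < y → (0 < 2 * x / y ↔ 0 < x) := by
      intro x y hy
      rw [lt_div_iff₀ hy]
      constructor <;> intro h <;> linarith
    have mi : c i < 0 ↔ ¬ η2 < Real.pi / 2 := by
      rw [lt_iff ci0, not_iff_not, lt_half_iff b1 b2, b3, ci, ncA o1]
    have mj : c j < 0 ↔ ¬ η1 < Real.pi / 2 := by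
      rw [lt_iff cj0, not_iff_not, lt_half_iff a1 a2, a3, cj, ncA o1, sw i.1 n]
    have mk : c k < 0 ↔ ¬ ζ2 < Real.pi / 2 := by
      rw [lt_iff ck0, not_iff_not, lt_half_iff f1 f2, f3, ck, show -(2 * dt n l.1 / dt k.1 l.1)
        = 2 * dt n l.1 / (-dt k.1 l.1) by ring, ncA (by linarith)]
    have ml : c l < 0 ↔ ¬ ζ1 < Real.pi / 2 := by
      rw [lt_iff cl0, not_iff_not, lt_half_iff e1 e2, e3, cl, show -(2 * dt k.1 n / dt k.1 l.1)
        = 2 * dt k.1 n / (-dt k.1 l.1) by ring, ncA (by linarith), sw k.1 n]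
    refine ⟨g, η1, η2, ζ1, ζ2, d, a1, b1, e1, f1, qA.1, qA.2, qB.1, qB.2, ?_, ?_, ?_, ?_, hd,
      hlam, ?_, ?_⟩
    · apply ne_half; rw [a3]; exact neg_ne_zero.2 dni
    · apply ne_half; rw [b3]; exact dnj
    · apply ne_half; rw [e3]; exact neg_ne_zero.2 dnk
    · apply ne_half; rw [f3]; exact dnl
    · rw [Finset.image_insert, Finset.image_insert, Finset.image_insert, Finset.image_singleton,
        gi, gj, gk, gl]
    · rw [Mm_image mi mj mk ml, gi, gj, gk, gl]
      rfl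

end core

/-- module TO3 -/
theorem to3 (hV : VxxStatement) (hS : SlxStatement) (hARC : ArcStatement)
    (hARZ : ArzStatement) : To3Statement := by
  intro X hX h i j k l v w S hm np di dj dk dl nij nkl
  change Con3 X h i j k l v w
  have ne := S.ne
  obtain ⟨n1, n2, n3, n4, n5, n6⟩ := ne
  have dij : dt i.1 j.1 ≠ 0 := np i (by simp) j (by simp) n1
  have dkl : dt k.1 l.1 ≠ 0 := np k (by simp) l (by simp) n6
  have np2 : Np {j, i, k, l} := by rw [swapi_set]; exact np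
  have np3 : Np {i, j, l, k} := by rw [swapk_set]; exact np
  have np4 : Np {j, i, l, k} := by rw [swapi_set]; exact np3
  have nji : ip j.1 i.1 ≠ 0 := by rw [ip_comm]; exact nij
  have nlk : ip l.1 k.1 ≠ 0 := by rw [ip_comm]; exact nkl
  rcases lt_or_gt_of_ne dij with h1 | h1
  · have h1' : 0 < dt j.1 i.1 := by rw [dt_comm]; linarith
    apply con_swapi
    rcases lt_or_gt_of_ne dkl with h2 | h2
    · exact core3 hV hS hARC hARZ hX (swapi S) hm np2 dj di dk dl nji nkl h1' h2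
    · have h2' : dt l.1 k.1 < 0 := by rw [dt_comm]; linarith
      apply con_swapk
      exact core3 hV hS hARC hARZ hX (swapk (swapi S)) hm np4 dj di dl dk nji nlk h1' h2'
  · rcases lt_or_gt_of_ne dkl with h2 | h2
    · exact core3 hV hS hARC hARZ hX S hm np di dj dk dl nij nkl h1 h2
    · have h2' : dt l.1 k.1 < 0 := by rw [dt_comm]; linarith
      apply con_swapk
      exact core3 hV hS hARC hARZ hX (swapk S) hm np3 di dj dl dk nij nlk h1 h2'

end Pool.Agent.XQ.H30
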