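import Pool.Agent.Helper30_XQ.TO3

/-!
Squad XQ, Part G: module TO4.
-/

set_option autoImplicit false

namespace Pool.Agent.XQ.H30

open MeasureTheory Complex Filter Topology Pool.Agent.H62T
open Pool.Agent.H16F (Sublin)
open Pool.Agent.AEU
open Pool.Agent.AEU.H69 (ee ee_cont ee_per ee_add ee_pi norm_ee sub_ii lam_def mem_touch)

theorem dt_ee_ee (a b : ℝ) : dt (ee a) (ee b) = Real.sin (b - a) := by
  have h1 : ∀ t : ℝ, (ee t).re = Real.cos t ∧ (ee t).im = Real.sin t := by
    intro t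
    unfold ee
    rw [Complex.exp_mul_I, ← Complex.ofReal_cos, ← Complex.ofReal_sin]
    simp only [mul_re, mul_im, add_re, add_im, ofReal_re, ofReal_im, I_re, I_im]
    constructor <;> ring
  unfold dt
  rw [(h1 a).1, (h1 a).2, (h1 b).1, (h1 b).2, Real.sin_sub]
  ring

theorem dt_smul_left (c : ℝ) (z x : ℂ) : dt ((c : ℂ) * z) x = c * dt z x := by
  simp only [dt, mul_re, mul_im, ofReal_re, ofReal_im]; ring

theorem dt_smul_right (c : ℝ) (z x : ℂ) : dt z ((c : ℂ) * x) = c * dt z x := by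
  simp only [dt, mul_re, mul_im, ofReal_re, ofReal_im]; ring

theorem dt_sub_right (z x y : ℂ) : dt z (x - y) = dt z x - dt z y := by
  simp only [dt, sub_re, sub_im]; ring

/-- unit vectors in the open half-plane `dt (ee φ) z > 0` -/
theorem up_ee {z : ℂ} (hz : ‖z‖ = 1) {φ : ℝ} (h : 0 < dt (ee φ) z) :
    ∃ θ, 0 < θ ∧ θ < Real.pi ∧ z = ee (φ + θ) := by
  have hpi := Real.pi_pos
  obtain ⟨t, ht, e⟩ := exists_ee hz φ
  rw [e, dt_ee_ee] at h
  have h0 : 0 < t - φ := by
    rcases lt_or_eq_of_le (sub_nonneg.2 ht.1) with h1 | h1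
    · exact h1
    · rw [← h1, Real.sin_zero] at h
      exact absurd h (lt_irrefl _)
  have h2 : t - φ < Real.pi := by
    by_contra h3
    rw [not_lt] at h3
    have h4 : 0 ≤ Real.sin (t - φ - Real.pi) :=
      Real.sin_nonneg_of_nonneg_of_le_pi (by linarith) (by linarith [ht.2])
    rw [Real.sin_sub_pi] at h4
    linarith
  exact ⟨t - φ, h0, h2, by rw [e]; congr 1; ring⟩

theorem sin_pos_lt {x : ℝ} (h0 : 0 < x) (h1 : x < 2 * Real.pi) (hs : 0 < Real.sin x) :
    x < Real.pi := by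
  by_contra h3
  rw [not_lt] at h3
  have h4 : 0 ≤ Real.sin (x - Real.pi) :=
    Real.sin_nonneg_of_nonneg_of_le_pi (by linarith) (by linarith)
  rw [Real.sin_sub_pi] at h4
  linarith

/-- the trigonometric part of the condition at a vertex of the edge -/
theorem trig4 {α θ : ℝ} (h0 : 0 < θ) (h1 : θ < α) (h2 : α < Real.pi)
    (H : ¬ (-Real.sin θ < -Real.cos α * (-(Real.sin α + Real.sin (α - θ)))))
    (N : Real.sin (2 * α - θ) ≠ 0) :
    Real.pi / 2 < α ∧ θ < 2 * α - Real.pi ∧
      Real.sin θ + (1 + Real.cos θ) * Real.cos α / Real.sin α < 0 := by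
  have hpi := Real.pi_pos
  have sA : 0 < Real.sin α := Real.sin_pos_of_pos_of_lt_pi (by linarith) h2
  have e1 : Real.sin θ = Real.sin α * Real.cos (α - θ) - Real.cos α * Real.sin (α - θ) := by
    have : θ = α - (α - θ) := by ring
    nth_rw 1 [this]
    rw [Real.sin_sub]
  rw [not_lt, e1] at H
  have h3 : Real.cos α + Real.cos (α - θ) ≤ 0 := by
    by_contra h4
    rw [not_le] at h4
    nlinarith [mul_pos sA h4]
  have e2 : Real.cos α + Real.cos (α - θ) = 2 * Real.cos (α - θ / 2) * Real.cos (θ / 2) := by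
    obtain ⟨u, hu⟩ : ∃ u, u = α - θ / 2 := ⟨_, rfl⟩
    have a1 : Real.cos α = Real.cos (u + θ / 2) := by rw [hu]; congr 1; ring
    have a2 : Real.cos (α - θ) = Real.cos (u - θ / 2) := by rw [hu]; congr 1; ring
    rw [a1, a2, ← hu, Real.cos_add, Real.cos_sub]
    ring
  have h4 : 0 < Real.cos (θ / 2) := Real.cos_pos_of_mem_Ioo ⟨by linarith, by linarith⟩
  have h5 : Real.cos (α - θ / 2) < 0 := by
    rcases lt_trichotomy (Real.cos (α - θ / 2)) 0 with h6 | h6 | h6
    · exact h6
    · exfalso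
      apply N
      have : 2 * α - θ = 2 * (α - θ / 2) := by ring
      rw [this, Real.sin_two_mul, h6]; ring
    · exfalso
      rw [e2] at h3
      nlinarith [mul_pos h6 h4]
  have h6 : Real.pi / 2 < α - θ / 2 := by
    by_contra h7
    rw [not_lt] at h7
    have : 0 ≤ Real.cos (α - θ / 2) :=
      Real.cos_nonneg_of_neg_pi_div_two_le_of_le (by linarith) h7
    linarith
  refine ⟨by linarith, by linarith, ?_⟩
  have h7 : Real.cos α + Real.cos (α - θ) < 0 := by
    rw [e2]; nlinarith [mul_pos (neg_pos.2 h5) h4]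
  have e3 : Real.sin θ * Real.sin α + (1 + Real.cos θ) * Real.cos α
      = Real.cos α + Real.cos (α - θ) := by
    rw [Real.cos_sub]; ring
  have e4 : Real.sin θ + (1 + Real.cos θ) * Real.cos α / Real.sin α
      = (Real.cos α + Real.cos (α - θ)) / Real.sin α := by
    rw [← e3]; field_simp
  rw [e4]
  exact div_neg_of_neg_of_pos h7 sA

theorem ee_re_im (t : ℝ) : (ee t).re = Real.cos t ∧ (ee t).im = Real.sin t := by
  unfold ee
  rw [Complex.exp_mul_I, ← Complex.ofReal_cos, ← Complex.ofReal_sin]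
  simp only [mul_re, mul_im, add_re, add_im, ofReal_re, ofReal_im, I_re, I_im]
  constructor <;> ring

/-- the certificate at the vertex `v` of the edge -/
theorem cvec {α θ : ℝ} (sA : Real.sin α ≠ 0) (φ : ℝ) :
    (((1 + Real.cos θ) / Real.sin α : ℝ) : ℂ) * ee (φ + (α + Real.pi / 2))
      + ((Real.sin θ + (1 + Real.cos θ) * Real.cos α / Real.sin α : ℝ) : ℂ)
        * ee (φ + -(Real.pi / 2)) = -(ee φ + ee (φ + θ)) := by
  rw [ee_add φ, ee_add φ, ee_add φ]
  have key : (((1 + Real.cos θ) / Real.sin α : ℝ) : ℂ) * ee (α + Real.pi / 2)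
      + ((Real.sin θ + (1 + Real.cos θ) * Real.cos α / Real.sin α : ℝ) : ℂ)
        * ee (-(Real.pi / 2)) = -(1 + ee θ) := by
    apply Complex.ext
    · simp only [add_re, re_ofReal_mul, neg_re, one_re, (ee_re_im _).1]
      rw [Real.cos_add_pi_div_two, Real.cos_neg, Real.cos_pi_div_two]
      field_simp
      ring
    · simp only [add_im, im_ofReal_mul, neg_im, one_im, (ee_re_im _).2]
      rw [Real.sin_add_pi_div_two, Real.sin_neg, Real.sin_pi_div_two]
      field_simp
      ring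
  linear_combination ee φ * key

/-- the certificate at the vertex `w` of the edge -/
theorem cvec' {α θ : ℝ} (sA : Real.sin α ≠ 0) (φ : ℝ) :
    (((1 + Real.cos θ) / Real.sin α : ℝ) : ℂ) * ee (φ + (Real.pi / 2 - α))
      + ((Real.sin θ + (1 + Real.cos θ) * Real.cos α / Real.sin α : ℝ) : ℂ)
        * ee (φ + -(Real.pi / 2)) = ee φ + ee (φ + -θ) := by
  rw [ee_add φ, ee_add φ, ee_add φ]
  have key : (((1 + Real.cos θ) / Real.sin α : ℝ) : ℂ) * ee (Real.pi / 2 - α)
      + ((Real.sin θ + (1 + Real.cos θ) * Real.cos α / Real.sin α : ℝ) : ℂ)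
        * ee (-(Real.pi / 2)) = 1 + ee (-θ) := by
    apply Complex.ext
    · simp only [add_re, re_ofReal_mul, one_re, (ee_re_im _).1]
      rw [Real.cos_pi_div_two_sub, Real.cos_neg, Real.cos_pi_div_two, Real.cos_neg]
      field_simp
      ring
    · simp only [add_im, im_ofReal_mul, one_im, (ee_re_im _).2]
      rw [Real.sin_pi_div_two_sub, Real.sin_neg, Real.sin_pi_div_two, Real.sin_neg]
      field_simp
      ring
  linear_combination ee φ * key

/-- the certificate at the third point -/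
theorem svec {θ θ' φ : ℝ} : ee (φ + θ) - ee (φ + -θ')
    = ((2 * Real.sin ((θ + θ') / 2) : ℝ) : ℂ) * ee (φ + (Real.pi / 2 + (θ - θ') / 2)) := by
  rw [ee_add φ, ee_add φ, ee_add φ]
  have key : ee θ - ee (-θ')
      = ((2 * Real.sin ((θ + θ') / 2) : ℝ) : ℂ) * ee (Real.pi / 2 + (θ - θ') / 2) := by
    have a1 : θ = (θ - θ') / 2 + (θ + θ') / 2 := by ring
    have a2 : -θ' = (θ - θ') / 2 - (θ + θ') / 2 := by ring
    apply Complex.ext
    · simp only [sub_re, re_ofReal_mul, (ee_re_im _).1]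
      rw [add_comm (Real.pi / 2), Real.cos_add_pi_div_two, a2]
      nth_rw 1 [a1]
      rw [Real.cos_add, Real.cos_sub]
      ring
    · simp only [sub_im, im_ofReal_mul, (ee_re_im _).2]
      rw [add_comm (Real.pi / 2), Real.sin_add_pi_div_two, a2]
      nth_rw 1 [a1]
      rw [Real.sin_add, Real.sin_sub]
      ring
  linear_combination ee φ * key

theorem touch4 (hV : VxxStatement) {X : Finset HP} (hX : Pg X) {h : ℂ → ℝ} {i j k s : HP}
    {v w x : ℂ} (S : Sh4 X h i j k s v w x) (hx : x ∈ Cl X) : touch X h = {i, j, k, s} := by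
  obtain ⟨V1, -⟩ := hV X hX
  have hb := (H69.mixS X).2.2 2 ![v, w, x] (by
    intro i; fin_cases i
    · exact S.vi.cl
    · exact S.wk.cl
    · exact hx)
  ext t
  rw [S.body, hb.2]
  simp only [Finset.mem_insert, Finset.mem_singleton]
  constructor
  · rintro ⟨ht, a, ha⟩
    fin_cases a
    · rcases V1 i j v S.vi t ht ha with h1 | h1
      · exact Or.inl h1
      · exact Or.inr (Or.inl h1)
    · rcases V1 j k w S.wk t ht ha with h1 | h1
      · exact Or.inr (Or.inl h1)
      · exact Or.inr (Or.inr (Or.inl h1))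
    · by_contra h1
      push Not at h1
      have h2 := S.xt t ht h1.2.2.2
      have h3 : ip t.1 x = t.2 := ha
      linarith
  · rintro (h1 | h1 | h1 | h1)
    · subst h1; exact ⟨S.vi.mem₁, 0, S.vi.on₁⟩
    · subst h1; exact ⟨S.vi.mem₂, 0, S.vi.on₂⟩
    · subst h1; exact ⟨S.wk.mem₂, 1, S.wk.on₂⟩
    · subst h1; exact ⟨S.sX, 2, S.xs⟩

/-- the conclusion of TO4 -/
def Con4 (X : Finset HP) (h : ℂ → ℝ) (i j k s : HP) : Prop :=
  ∃ c : HP → ℝ, TornC X {i, j, k, s} h (lam h) c ∧
    Std4 {i, j, k, s} (Mm {i, j, k, s} c) (lam h)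

theorem set4 (i j k s : HP) : ({k, j, i, s} : Finset HP) = {i, j, k, s} := by
  ext t
  simp only [Finset.mem_insert, Finset.mem_singleton]
  tauto

section core

variable (hV : VxxStatement) (hS : SlxStatement) (hARC : ArcStatement)
  {X : Finset HP} (hX : Pg X) {h : ℂ → ℝ} {i j k s : HP} {v w x : ℂ}
  (S : Sh4 X h i j k s v w x) (hm : MinF X h)

theorem swap4 (S : Sh4 X h i j k s v w x) : Sh4 X h k j i s w v x := by
  obtain ⟨n1, n2, n3, n4, n5, n6⟩ := S.ne
  refine ⟨⟨S.wk.cl, S.wk.mem₂, S.wk.mem₁, n4.symm, S.wk.on₂, S.wk.on₁⟩,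
    ⟨S.vi.cl, S.vi.mem₂, S.vi.mem₁, n1.symm, S.vi.on₂, S.vi.on₁⟩, S.sX,
    ⟨n4.symm, n2.symm, n6, n1.symm, n5, n3⟩, S.xs, S.xt, ?_⟩
  rw [S.body]
  funext z
  rw [H69.hf3, H69.hf3, max_comm (ip z v)]

theorem xcl (S : Sh4 X h i j k s v w x) : x ∈ Cl X := by
  intro t ht
  by_cases h1 : t = s
  · rw [h1]; exact S.xs.le
  · exact (S.xt t ht h1).le

include hV hS hX S hm

/-- the side `i` is not acute with respect to the bisector at `v` -/
theorem nac (hx : x ∈ Cl X) (hwv : w ≠ v) (hxv : x ≠ v) :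
    ¬ Ac ((w - v) / (‖w - v‖ : ℂ) + (x - v) / (‖x - v‖ : ℂ)) i j ∧
    ∃ v' ∈ Cl X, ip j.1 v' = j.2 ∧ ‖w - v'‖ + ‖v' - x‖ < ‖w - v‖ + ‖v - x‖ := by
  have hT := touch4 hV hX S hx
  have key := hS X hX i j v S.vi w S.wk.cl x hx hwv hxv
  have h1 : ¬ Ac ((w - v) / (‖w - v‖ : ℂ) + (x - v) / (‖x - v‖ : ℂ)) i j := by
    intro h2
    obtain ⟨v', c1, -, c2, c3⟩ := key.2 h2
    have hb := pts3 (S := touch X h) c1 S.wk.cl hx (by
      rw [hT]
      intro t ht
      simp only [Finset.mem_insert, Finset.mem_singleton] at ht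
      rcases ht with h1 | h1 | h1 | h1
      · subst h1; exact ⟨S.vi.mem₁, Or.inl c2⟩
      · subst h1; exact ⟨S.vi.mem₂, Or.inr (Or.inl S.wk.on₁)⟩
      · subst h1; exact ⟨S.wk.mem₂, Or.inr (Or.inl S.wk.on₂)⟩
      · subst h1; exact ⟨S.sX, Or.inr (Or.inr S.xs)⟩)
    have h3 := hm _ hb.1 hb.2.1 hb.2.2
    rw [H69.lam3, S.body, H69.lam3] at h3
    rw [norm_sub_rev w v', norm_sub_rev v' x, norm_sub_rev w v, norm_sub_rev v x] at c3
    linarith
  refine ⟨h1, ?_⟩
  have key2 := hS X hX j i v ⟨S.vi.cl, S.vi.mem₂, S.vi.mem₁, S.vi.ne.symm, S.vi.on₂, S.vi.on₁⟩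
    w S.wk.cl x hx hwv hxv
  obtain ⟨v', c1, -, c2, c3⟩ := key2.2 (key.1.resolve_left h1)
  exact ⟨v', c1, c2, c3⟩

include hARC

theorem core4 (np : Np {i, j, k, s})
    (d1 : dt (rl s w - v) (i.1 * i.1 * (starRingEnd ℂ) (w - v)) ≠ 0)
    (d2 : dt (rl s v - w) (k.1 * k.1 * (starRingEnd ℂ) (v - w)) ≠ 0)
    (o : 0 < dt (w - v) (x - v)) : Con4 X h i j k s := by
  classical
  have hpi := Real.pi_pos
  have hx := xcl S
  have hT := touch4 hV hX S hx
  obtain ⟨V1, V2, -⟩ := hV X hX
  have ne := S.ne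
  obtain ⟨n1, n2, n3, n4, n5, n6⟩ := S.ne
  have ui := hX.unit i S.vi.mem₁
  have uj := hX.unit j S.vi.mem₂
  have uk := hX.unit k S.wk.mem₂
  have us := hX.unit s S.sX
  have hiw : ip i.1 w < i.2 := V2 j k w S.wk i S.vi.mem₁ n1 n2
  have hkv : ip k.1 v < k.2 := V2 i j v S.vi k S.wk.mem₂ n2.symm n4.symm
  have hsv : ip s.1 v < s.2 := V2 i j v S.vi s S.sX n3.symm n5.symm
  have hsw : ip s.1 w < s.2 := V2 j k w S.wk s S.sX n5.symm n6.symm
  have hix := S.xt i S.vi.mem₁ n3
  have hjx := S.xt j S.vi.mem₂ n5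
  have hkx := S.xt k S.wk.mem₂ n6
  have hwv : w ≠ v := by
    rintro rfl
    rw [S.vi.on₁] at hiw
    exact lt_irrefl _ hiw
  have hxv : x ≠ v := by
    rintro rfl
    rw [S.vi.on₁] at hix
    exact lt_irrefl _ hix
  have hxw : x ≠ w := by
    rintro rfl
    rw [S.wk.on₂] at hkx
    exact lt_irrefl _ hkx
  have hd : 0 < ‖w - v‖ := norm_pos_iff.2 (sub_ne_zero.2 hwv)
  have hp : 0 < ‖x - v‖ := norm_pos_iff.2 (sub_ne_zero.2 hxv)
  have hp' : 0 < ‖x - w‖ := norm_pos_iff.2 (sub_ne_zero.2 hxw)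
  obtain ⟨φ, -, hφ⟩ := exists_ee (H72.norm_unit (sub_ne_zero.2 hwv)) 0
  have NA := nac hV hS hX S hm hx hwv hxv
  have NB := nac hV hS hX (swap4 S) hm hx hwv.symm hxw
  set d := ‖w - v‖ with hd_def
  set p := ‖x - v‖ with hp_def
  set p' := ‖x - w‖ with hp'_def
  have unscale : ∀ {z : ℂ} {r : ℝ} {e : ℂ}, 0 < r → z / (r : ℂ) = e → z = (r : ℂ) * e := by
    intro z r e hr he
    have : (r : ℂ) ≠ 0 := by exact_mod_cast hr.ne'
    rw [← he]; field_simp
  have ewv : w - v = (d : ℂ) * ee φ := unscale hd hφ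
  -- the angle at `v`
  obtain ⟨θ, th0, th1, hθ⟩ := up_ee (φ := φ) (H72.norm_unit (sub_ne_zero.2 hxv)) (by
    have h1 : dt (w - v) (x - v) = d * p * dt (ee φ) ((x - v) / (p : ℂ)) := by
      have h2 : x - v = (p : ℂ) * ((x - v) / (p : ℂ)) := unscale hp rfl
      nth_rw 1 [h2]
      rw [ewv, dt_smul_left, dt_smul_right]; ring
    rw [h1] at o
    exact (pos_iff_pos_of_mul_pos o).1 (mul_pos hd hp))
  have exv : x - v = (p : ℂ) * ee (φ + θ) := unscale hp hθ
  -- the angle at `w`
  have o' : 0 < dt (ee φ) (x - w) := by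
    have h1 : dt (w - v) (x - w) = dt (w - v) (x - v) := by
      have : x - w = (x - v) - (w - v) := by ring
      rw [this, dt_sub_right]
      have : dt (w - v) (w - v) = 0 := by unfold dt; ring
      rw [this]; ring
    rw [ewv, dt_smul_left, ← ewv] at h1
    rw [← h1] at o
    exact (pos_iff_pos_of_mul_pos o).1 hd
  obtain ⟨t1, t10, t11, ht1⟩ := up_ee (φ := φ) (H72.norm_unit (sub_ne_zero.2 hxw)) (by
    have h2 : x - w = (p' : ℂ) * ((x - w) / (p' : ℂ)) := unscale hp' rfl
    rw [h2, dt_smul_right] at o'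
    exact (pos_iff_pos_of_mul_pos o').1 hp')
  obtain ⟨θ', hθ'⟩ : ∃ θ', t1 = Real.pi - θ' := ⟨Real.pi - t1, by ring⟩
  subst hθ'
  have th0' : 0 < θ' := by linarith
  have th1' : θ' < Real.pi := by linarith
  have eneg : ∀ a : ℝ, ee (φ + (Real.pi - a)) = -ee (φ + -a) := by
    intro a
    rw [← ee_pi]; congr 1; ring
  have exw : x - w = -((p' : ℂ) * ee (φ + -θ')) := by
    have := unscale hp' ht1
    rw [eneg] at this
    rw [this]; ring
  -- the triangle
  have tri : 0 < Real.sin (θ + θ') := by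
    have h1 : dt (x - v) (x - w) = dt (w - v) (x - v) := by
      have : x - w = (x - v) - (w - v) := by ring
      rw [this, dt_sub_right, dt_comm (x - v) (w - v)]
      have : dt (x - v) (x - v) = 0 := by unfold dt; ring
      rw [this]; ring
    have h2 : dt (x - v) (x - w) = p * p' * Real.sin (θ + θ') := by
      rw [exv, unscale hp' ht1, dt_smul_left, dt_smul_right, dt_ee_ee]
      have : φ + (Real.pi - θ') - (φ + θ) = Real.pi - (θ + θ') := by ring
      rw [this, Real.sin_pi_sub]; ring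
    rw [← h1, h2] at o
    exact (pos_iff_pos_of_mul_pos o).1 (mul_pos hp hp')
  have ths : θ + θ' < Real.pi := sin_pos_lt (by linarith) (by linarith) tri
  have cosum : p * Real.cos θ + p' * Real.cos θ' = d := by
    have h1 : ip (ee φ) (w - v) = ip (ee φ) (x - v) - ip (ee φ) (x - w) := by
      rw [← H69.ip_sub_right]; congr 1; ring
    rw [ewv, exv, exw, H69.ip_neg_right, H69.ip_smul_right, H69.ip_smul_right, H69.ip_smul_right,
      ip_ee_ee, ip_ee_ee, ip_ee_ee] at h1
    have e1 : φ - (φ + θ) = -θ := by ring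
    have e2 : φ - (φ + -θ') = θ' := by ring
    rw [e1, e2, sub_self, Real.cos_zero, Real.cos_neg] at h1
    linarith
  have cos_lt : ∀ a : ℝ, 0 < a → a < Real.pi → Real.cos a < 1 := by
    intro a h1 h2
    have h3 := Real.sin_pos_of_pos_of_lt_pi h1 h2
    nlinarith only [Real.sin_sq_add_cos_sq a, Real.neg_one_le_cos a, h3]
  have dlt : d < p + p' := by
    have h1 := cos_lt θ th0 th1
    have h2 := cos_lt θ' th0' th1'
    nlinarith only [h1, h2, hp, hp', cosum]
  -- the normals
  have hj1 : j.1 = ee (φ + -(Real.pi / 2)) := by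
    have h1 : ip j.1 (ee φ) = 0 := by
      have h2 : ip j.1 (w - v) = 0 := by rw [H69.ip_sub_right, S.wk.on₁, S.vi.on₂]; ring
      rw [ewv, H69.ip_smul_right] at h2
      exact (mul_eq_zero.1 h2).resolve_left hd.ne'
    have h2 : ip j.1 (ee (φ + θ)) < 0 := by
      have h3 : ip j.1 (x - v) < 0 := by rw [H69.ip_sub_right, S.vi.on₂]; linarith
      rw [exv, H69.ip_smul_right] at h3
      by_contra h4
      rw [not_lt] at h4
      nlinarith only [h3, h4, hp]
    obtain ⟨t, ht, e⟩ := exists_ee uj (φ + -(Real.pi / 2) - Real.pi / 2)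
    rw [e, ip_ee_ee] at h1
    have h3 : Real.sin (t - φ + Real.pi / 2) = 0 := by
      rw [Real.sin_add_pi_div_two]; exact h1
    have h4 : t - φ + Real.pi / 2 = 0 ∨ t - φ + Real.pi / 2 = Real.pi ∨
        t - φ + Real.pi / 2 = -(Real.pi / 2) := by
      by_contra hcon
      push Not at hcon
      obtain ⟨c1, c2, c3⟩ := hcon
      rcases lt_trichotomy (t - φ + Real.pi / 2) 0 with h5 | h5 | h5
      · have : 0 < Real.sin (-(t - φ + Real.pi / 2)) :=
          Real.sin_pos_of_pos_of_lt_pi (by linarith) (by linarith [ht.1])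
        rw [Real.sin_neg] at this
        linarith
      · exact c1 h5
      · rcases lt_trichotomy (t - φ + Real.pi / 2) Real.pi with h6 | h6 | h6
        · have := Real.sin_pos_of_pos_of_lt_pi h5 h6
          linarith
        · exact c2 h6
        · have : 0 < Real.sin (t - φ + Real.pi / 2 - Real.pi) :=
            Real.sin_pos_of_pos_of_lt_pi (by linarith) (by linarith [ht.2])
          rw [Real.sin_sub_pi] at this
          linarith
    rcases h4 with h4 | h4 | h4
    · rw [e]; congr 1; linarith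
    · exfalso
      rw [e, ip_ee_ee] at h2
      have : t - (φ + θ) = Real.pi / 2 - θ := by linarith
      rw [this, Real.cos_pi_div_two_sub] at h2
      linarith [Real.sin_pos_of_pos_of_lt_pi th0 th1]
    · exfalso
      rw [h4, Real.sin_neg, Real.sin_pi_div_two] at h3
      linarith
  have Ipi : ∀ (a b : ℝ), ip (ee (φ + (a + Real.pi / 2))) (ee (φ + b)) = -Real.sin (a - b) := by
    intro a b
    rw [ip_ee_ee]
    have : φ + (a + Real.pi / 2) - (φ + b) = (a - b) + Real.pi / 2 := by ring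
    rw [this, Real.cos_add_pi_div_two]
  obtain ⟨α, al0, al1, hi1⟩ : ∃ α, 0 < α ∧ α < Real.pi ∧ i.1 = ee (φ + (α + Real.pi / 2)) := by
    obtain ⟨a, a0, a1, ha⟩ := up_ee (φ := φ + Real.pi / 2) ui (by
      have h1 : ip i.1 (ee φ) < 0 := by
        have h3 : ip i.1 (w - v) < 0 := by rw [H69.ip_sub_right, S.vi.on₁]; linarith
        rw [ewv, H69.ip_smul_right] at h3
        by_contra h4
        rw [not_lt] at h4
        nlinarith only [h3, h4, hd]
      have h2 : dt (ee (φ + Real.pi / 2)) i.1 = -ip i.1 (ee φ) := by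
        rw [← I_mul_ee]
        simp only [dt, ip, mul_re, mul_im, I_re, I_im]; ring
      rw [h2]; linarith)
    refine ⟨a, a0, a1, ?_⟩
    rw [ha]; congr 1; ring
  have alth : θ < α := by
    have h3 : ip i.1 (x - v) < 0 := by rw [H69.ip_sub_right, S.vi.on₁]; linarith
    rw [exv, H69.ip_smul_right, hi1, Ipi] at h3
    by_contra h4
    rw [not_lt] at h4
    have h5 : Real.sin (α - θ) ≤ 0 := by
      have := Real.sin_nonneg_of_nonneg_of_le_pi (x := θ - α) (by linarith) (by linarith)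
      rw [← neg_sub, Real.sin_neg] at this
      linarith
    nlinarith only [h3, h5, hp]
  obtain ⟨α', al0', al1', hk1⟩ : ∃ α', 0 < α' ∧ α' < Real.pi ∧
      k.1 = ee (φ + (Real.pi / 2 - α')) := by
    obtain ⟨a, a0, a1, ha⟩ := up_ee (φ := φ - Real.pi / 2) uk (by
      have h1 : 0 < ip k.1 (ee φ) := by
        have h3 : 0 < ip k.1 (w - v) := by rw [H69.ip_sub_right, S.wk.on₂]; linarith
        rw [ewv, H69.ip_smul_right] at h3
        exact (pos_iff_pos_of_mul_pos h3).1 hd
      have h2 : dt (ee (φ - Real.pi / 2)) k.1 = ip k.1 (ee φ) := by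
        have := I_mul_ee' φ
        rw [← this]
        simp only [dt, ip, mul_re, mul_im, I_re, I_im]; ring
      rw [h2]; exact h1)
    refine ⟨Real.pi - a, by linarith, by linarith, ?_⟩
    rw [ha]; congr 1; ring
  have ksum : ∀ b : ℝ, ip (ee (φ + (Real.pi / 2 - α'))) (ee (φ + b)) = Real.sin (α' + b) := by
    intro b
    rw [ip_ee_ee]
    have : φ + (Real.pi / 2 - α') - (φ + b) = Real.pi / 2 - (α' + b) := by ring
    rw [this, Real.cos_pi_div_two_sub]
  have alth' : θ' < α' := by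
    have h3 : ip k.1 (x - w) < 0 := by rw [H69.ip_sub_right, S.wk.on₂]; linarith
    rw [exw, H69.ip_neg_right, H69.ip_smul_right, hk1, ksum] at h3
    by_contra h4
    rw [not_lt] at h4
    have h5 : Real.sin (α' + -θ') ≤ 0 := by
      have := Real.sin_nonneg_of_nonneg_of_le_pi (x := θ' - α') (by linarith) (by linarith)
      have e : θ' - α' = -(α' + -θ') := by ring
      rw [e, Real.sin_neg] at this
      linarith
    nlinarith only [h3, h5, hp']
  -- the reflection law at `x`
  set κ := 2 * Real.sin ((θ + θ') / 2) with hκ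
  have hκ0 : 0 < κ := by
    have := Real.sin_pos_of_pos_of_lt_pi (x := (θ + θ') / 2) (by linarith) (by linarith)
    linarith
  have hs1 : s.1 = ee (φ + (Real.pi / 2 + (θ - θ') / 2)) ∧
      (κ : ℂ) * s.1 = ee (φ + θ) - ee (φ + -θ') := by
    have hmin : ∃ ε > 0, ∀ t : ℝ, |t| < ε →
        ‖v - x‖ + ‖x - w‖ ≤ ‖v - (x + t * (I * s.1))‖ + ‖(x + t * (I * s.1)) - w‖ := by
      have hzs : ip s.1 (I * s.1) = 0 := by
        simp only [ip, mul_re, mul_im, I_re, I_im]; ring
      obtain ⟨ε1, q1, q2⟩ := stay (X := X) (v := x) (t := I * s.1) hx (by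
        intro r hr hrx
        by_cases h1 : r = s
        · rw [h1, hzs]
        · exact absurd hrx (S.xt r hr h1).ne)
      obtain ⟨ε2, q3, q4⟩ := stay (X := X) (v := x) (t := -(I * s.1)) hx (by
        intro r hr hrx
        by_cases h1 : r = s
        · rw [h1, H69.ip_neg_right, hzs, neg_zero]
        · exact absurd hrx (S.xt r hr h1).ne)
      refine ⟨min ε1 ε2, lt_min q1 q3, fun t ht => ?_⟩
      have hcl : x + (t : ℂ) * (I * s.1) ∈ Cl X := by
        rcases le_total 0 t with h1 | h1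
        · rw [abs_of_nonneg h1] at ht
          exact q2 t h1 (ht.trans_le (min_le_left _ _))
        · rw [abs_of_nonpos h1] at ht
          have := q4 (-t) (by linarith) (ht.trans_le (min_le_right _ _))
          have e : x + ((-t : ℝ) : ℂ) * -(I * s.1) = x + (t : ℂ) * (I * s.1) := by
            push_cast; ring
          rwa [e] at this
      have hb := pts3 (S := touch X h) S.vi.cl S.wk.cl hcl (by
        rw [hT]
        intro r hr
        simp only [Finset.mem_insert, Finset.mem_singleton] at hr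
        rcases hr with h1 | h1 | h1 | h1
        · subst h1; exact ⟨S.vi.mem₁, Or.inl S.vi.on₁⟩
        · subst h1; exact ⟨S.vi.mem₂, Or.inl S.vi.on₂⟩
        · subst h1; exact ⟨S.wk.mem₂, Or.inr (Or.inl S.wk.on₂)⟩
        · subst h1
          refine ⟨S.sX, Or.inr (Or.inr ?_)⟩
          rw [H69.ip_add_right, H69.ip_smul_right, hzs, S.xs]; ring)
      have h3 := hm _ hb.1 hb.2.1 hb.2.2
      rw [H69.lam3, S.body, H69.lam3] at h3
      rw [norm_sub_rev v x, norm_sub_rev x w, norm_sub_rev v (x + _), norm_sub_rev (x + _) w]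
      linarith
    have hr := (H72.ref s.1 v w x s.2 us S.xs hsv hsw hmin).1
    obtain ⟨κ', hκ', hr⟩ := hr
    have e1 : (v - x) / (‖v - x‖ : ℂ) = -ee (φ + θ) := by
      rw [norm_sub_rev v x, ← hθ, ← hp_def]
      ring
    have e2 : (w - x) / (‖w - x‖ : ℂ) = ee (φ + -θ') := by
      rw [norm_sub_rev w x, ← hp'_def]
      have : (w - x) = -(x - w) := by ring
      rw [this, neg_div, ht1, eneg]; ring
    rw [e1, e2] at hr
    have hr2 : (κ' : ℂ) * s.1 = ee (φ + θ) - ee (φ + -θ') := by linear_combination hr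
    rw [svec] at hr2
    have hκκ : κ' = κ := by
      have h4 := congrArg norm hr2
      rw [norm_mul, norm_mul, us, norm_ee, mul_one, mul_one, Complex.norm_real,
        Complex.norm_real, Real.norm_eq_abs, Real.norm_eq_abs, abs_of_pos hκ',
        abs_of_pos (by rw [hκ] at hκ0; exact hκ0)] at h4
      exact h4
    rw [hκκ] at hr2
    have hne : (κ : ℂ) ≠ 0 := by exact_mod_cast hκ0.ne'
    refine ⟨mul_left_cancel₀ hne hr2, ?_⟩
    rw [hr2, svec]
  obtain ⟨hs1, hs2⟩ := hs1
  have sS : ∀ b : ℝ, ip s.1 (ee (φ + b)) = -Real.sin ((θ - θ') / 2 - b) := by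
    intro b
    rw [hs1, add_comm (Real.pi / 2), Ipi]
  -- the conditions on the angles
  have sA : 0 < Real.sin α := Real.sin_pos_of_pos_of_lt_pi al0 al1
  have sA' : 0 < Real.sin α' := Real.sin_pos_of_pos_of_lt_pi al0' al1'
  have dtij : dt i.1 j.1 = Real.sin α := by
    rw [hi1, hj1, dt_ee_ee]
    have : φ + -(Real.pi / 2) - (φ + (α + Real.pi / 2)) = -(α + Real.pi) := by ring
    rw [this, Real.sin_neg, Real.sin_add_pi]; ring
  have dtkj : dt k.1 j.1 = -Real.sin α' := by
    rw [hk1, hj1, dt_ee_ee]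
    have : φ + -(Real.pi / 2) - (φ + (Real.pi / 2 - α')) = -(Real.pi - α') := by ring
    rw [this, Real.sin_neg, Real.sin_pi_sub]
  have N1 : Real.sin (2 * α - θ) ≠ 0 := by
    intro h0
    apply d1
    have h1 : ip s.1 w - s.2 = -(p' * Real.sin ((θ + θ') / 2)) := by
      have h2 : ip s.1 w - s.2 = -ip s.1 (x - w) := by
        rw [H69.ip_sub_right, S.xs]; ring
      rw [h2, exw, H69.ip_neg_right, H69.ip_smul_right, sS]
      have : (θ - θ') / 2 - -θ' = (θ + θ') / 2 := by ring
      rw [this]; ring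
    have h2 : rl s w - v = ((p + p' : ℝ) : ℂ) * ee (φ + θ) := by
      unfold rl
      rw [h1]
      have e1 : ((2 * -(p' * Real.sin ((θ + θ') / 2)) : ℝ) : ℂ) * s.1
          = -((p' : ℂ) * ((κ : ℂ) * s.1)) := by rw [hκ]; push_cast; ring
      rw [e1, hs2]
      have e2 : w = x + (p' : ℂ) * ee (φ + -θ') := by linear_combination -exw
      have e3 : v = x - (p : ℂ) * ee (φ + θ) := by linear_combination -exv
      rw [e2, e3]
      push_cast; ring
    have h3 : i.1 * i.1 * (starRingEnd ℂ) (w - v) = (d : ℂ) * ee (φ + (2 * α + Real.pi)) := by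
      rw [ewv, map_mul, Complex.conj_ofReal, ← H69.ee_neg, hi1]
      have e1 : ee (φ + (2 * α + Real.pi))
          = ee (-φ) * (ee (φ + (α + Real.pi / 2)) * ee (φ + (α + Real.pi / 2))) := by
        rw [← ee_add, ← ee_add]; congr 1; ring
      rw [e1]; ring
    rw [h2, h3, dt_smul_left, dt_smul_right, dt_ee_ee]
    have : φ + (2 * α + Real.pi) - (φ + θ) = (2 * α - θ) + Real.pi := by ring
    rw [this, Real.sin_add_pi, h0]; ring
  have N2 : Real.sin (2 * α' - θ') ≠ 0 := by
    intro h0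
    apply d2
    have h1 : ip s.1 v - s.2 = -(p * Real.sin ((θ + θ') / 2)) := by
      have h2 : ip s.1 v - s.2 = -ip s.1 (x - v) := by
        rw [H69.ip_sub_right, S.xs]; ring
      rw [h2, exv, H69.ip_smul_right, sS]
      have : (θ - θ') / 2 - θ = -((θ + θ') / 2) := by ring
      rw [this, Real.sin_neg]; ring
    have h2 : rl s v - w = ((-(p + p') : ℝ) : ℂ) * ee (φ + -θ') := by
      unfold rl
      rw [h1]
      have e1 : ((2 * -(p * Real.sin ((θ + θ') / 2)) : ℝ) : ℂ) * s.1
          = -((p : ℂ) * ((κ : ℂ) * s.1)) := by rw [hκ]; push_cast; ring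
      rw [e1, hs2]
      have e2 : w = x + (p' : ℂ) * ee (φ + -θ') := by linear_combination -exw
      have e3 : v = x - (p : ℂ) * ee (φ + θ) := by linear_combination -exv
      rw [e2, e3]
      push_cast; ring
    have h3 : k.1 * k.1 * (starRingEnd ℂ) (v - w)
        = ((-d : ℝ) : ℂ) * ee (φ + (Real.pi - 2 * α')) := by
      have : v - w = -(w - v) := by ring
      rw [this, ewv, map_neg, map_mul, Complex.conj_ofReal, ← H69.ee_neg, hk1]
      have e1 : ee (φ + (Real.pi - 2 * α'))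
          = ee (-φ) * (ee (φ + (Real.pi / 2 - α')) * ee (φ + (Real.pi / 2 - α'))) := by
        rw [← ee_add, ← ee_add]; congr 1; ring
      rw [e1]; push_cast; ring
    rw [h2, h3, dt_smul_left, dt_smul_right, dt_ee_ee]
    have : φ + (Real.pi - 2 * α') - (φ + -θ') = Real.pi - (2 * α' - θ') := by ring
    rw [this, Real.sin_pi_sub, h0]; ring
  have ipij : ip i.1 j.1 = -Real.cos α := by
    rw [hi1, hj1, ip_ee_ee]
    have : φ + (α + Real.pi / 2) - (φ + -(Real.pi / 2)) = α + Real.pi := by ring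
    rw [this, Real.cos_add_pi]
  have ipkj : ip k.1 j.1 = -Real.cos α' := by
    rw [hk1, hj1, ip_ee_ee]
    have : φ + (Real.pi / 2 - α') - (φ + -(Real.pi / 2)) = Real.pi - α' := by ring
    rw [this, Real.cos_pi_sub]
  have jS : ∀ b : ℝ, ip j.1 (ee (φ + b)) = -Real.sin b := by
    intro b
    rw [hj1, ip_ee_ee]
    have : φ + -(Real.pi / 2) - (φ + b) = -(b + Real.pi / 2) := by ring
    rw [this, Real.cos_neg, Real.cos_add_pi_div_two]
  have eφ0 : ee φ = ee (φ + 0) := by rw [add_zero]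
  have TA := trig4 th0 alth al1 (by
    have h1 := NA.1
    rw [hφ, hθ] at h1
    unfold Ac at h1
    rw [ipij, H69.ip_add_left, H69.ip_add_left, ip_comm (ee φ), ip_comm (ee (φ + θ)),
      ip_comm (ee φ), ip_comm (ee (φ + θ)), eφ0, jS, jS, hi1, Ipi, Ipi, Real.sin_zero] at h1
    have e : -0 + -Real.sin θ = -Real.sin θ := by ring
    have e' : -Real.sin (α - 0) + -Real.sin (α - θ) = -(Real.sin α + Real.sin (α - θ)) := by
      rw [sub_zero]; ring
    rw [e, e'] at h1
    exact h1) N1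
  have TB := trig4 th0' alth' al1' (by
    have h1 := NB.1
    have e0 : (v - w) / (‖v - w‖ : ℂ) = -ee φ := by
      rw [norm_sub_rev v w, ← hd_def]
      have : (v - w) = -(w - v) := by ring
      rw [this, neg_div, hφ]
    rw [e0, ht1, eneg] at h1
    unfold Ac at h1
    rw [ipkj, H69.ip_add_left, H69.ip_add_left, H69.ip_neg_left, H69.ip_neg_left,
      H69.ip_neg_left, H69.ip_neg_left, ip_comm (ee φ), ip_comm (ee (φ + -θ')),
      ip_comm (ee φ), ip_comm (ee (φ + -θ')), eφ0, jS, jS, hk1, ksum, ksum, Real.sin_zero,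
      Real.sin_neg] at h1
    have e : -(-0) + - - -Real.sin θ' = -Real.sin θ' := by ring
    have e' : -Real.sin (α' + 0) + -Real.sin (α' + -θ') = -(Real.sin α' + Real.sin (α' - θ')) := by
      rw [add_zero]; ring_nf
    rw [e, e'] at h1
    exact h1) N2
  -- the coefficients
  set c1 := (1 + Real.cos θ) / Real.sin α with hc1
  set c2 := Real.sin θ + (1 + Real.cos θ) * Real.cos α / Real.sin α with hc2
  set c3 := (1 + Real.cos θ') / Real.sin α' with hc3
  set c4 := Real.sin θ' + (1 + Real.cos θ') * Real.cos α' / Real.sin α' with hc4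
  have cospos : ∀ a : ℝ, 0 < a → a < Real.pi → 0 < 1 + Real.cos a := by
    intro a h1 h2
    have h3 := Real.sin_pos_of_pos_of_lt_pi h1 h2
    nlinarith only [Real.sin_sq_add_cos_sq a, Real.cos_le_one a, h3]
  have c1p : 0 < c1 := div_pos (cospos θ th0 th1) sA
  have c3p : 0 < c3 := div_pos (cospos θ' th0' th1') sA'
  have c2n : c2 < 0 := TA.2.2
  have c4n : c4 < 0 := TB.2.2
  have vecv : (c1 : ℂ) * i.1 + (c2 : ℂ) * j.1 = -(ee φ + ee (φ + θ)) := by
    rw [hi1, hj1]; exact cvec sA.ne' φ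
  have vecw : (c3 : ℂ) * k.1 + (c4 : ℂ) * j.1 = ee φ + ee (φ + -θ') := by
    rw [hk1, hj1]; exact cvec' sA'.ne' φ
  set c : HP → ℝ := fun t => if t = i then c1 else if t = j then c2 + c4
    else if t = k then c3 else κ with hc
  have ci : c i = c1 := if_pos rfl
  have cj : c j = c2 + c4 := (if_neg n1.symm).trans (if_pos rfl)
  have ck : c k = c3 := (if_neg n2.symm).trans ((if_neg n4.symm).trans (if_pos rfl))
  have cs : c s = κ := (if_neg n3.symm).trans ((if_neg n5.symm).trans (if_neg n6.symm))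
  clear_value c c1 c2 c3 c4
  have ci0 : c i ≠ 0 := by rw [ci]; exact c1p.ne'
  have cj0 : c j ≠ 0 := by rw [cj]; linarith
  have ck0 : c k ≠ 0 := by rw [ck]; exact c3p.ne'
  have cs0 : c s ≠ 0 := by rw [cs]; exact hκ0.ne'
  have hlam : lam h = d + p + p' := by
    rw [S.body, H69.lam3, norm_sub_rev v w, norm_sub_rev w x, ← hd_def, ← hp_def, ← hp'_def]
    ring
  have hval : ∑ t ∈ ({i, j, k, s} : Finset HP), c t * t.2 = d + p + p' := by
    rw [sum4 ne, ci, cj, ck, cs]
    have e1 : c1 * i.2 + c2 * j.2 = ip (-(ee φ + ee (φ + θ))) v := by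
      rw [← vecv, H69.ip_add_left, H69.ip_smul_left, H69.ip_smul_left, S.vi.on₁, S.vi.on₂]
    have e2 : c3 * k.2 + c4 * j.2 = ip (ee φ + ee (φ + -θ')) w := by
      rw [← vecw, H69.ip_add_left, H69.ip_smul_left, H69.ip_smul_left, S.wk.on₁, S.wk.on₂]
    have e3 : κ * s.2 = ip (ee (φ + θ) - ee (φ + -θ')) x := by
      rw [← hs2, H69.ip_smul_left, S.xs]
    have e4 : c1 * i.2 + (c2 + c4) * j.2 + (c3 * k.2 + κ * s.2)
        = ip (ee φ) (w - v) + ip (ee (φ + θ)) (x - v) - ip (ee (φ + -θ')) (x - w) := by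
      have : c1 * i.2 + (c2 + c4) * j.2 + (c3 * k.2 + κ * s.2)
        = (c1 * i.2 + c2 * j.2) + (c3 * k.2 + c4 * j.2) + κ * s.2 := by ring
      rw [this, e1, e2, e3, H69.ip_neg_left, H69.ip_add_left, H69.ip_add_left, H69.ip_sub_left,
        H69.ip_sub_right, H69.ip_sub_right, H69.ip_sub_right]
      ring
    rw [e4, ewv, exv, exw, H69.ip_neg_right, H69.ip_smul_right, H69.ip_smul_right,
      H69.ip_smul_right, ip_ee_ee, ip_ee_ee, ip_ee_ee, sub_self, sub_self, sub_self,
      Real.cos_zero]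
    ring
  -- the arcs
  have ad : ∀ a b : ℝ, a = b → ee a = ee b := fun a b h => by rw [h]
  have arcx : I * ee (φ + Real.pi / 2 - θ') - I * ee (φ + Real.pi / 2 + θ)
      = ee (φ + θ) - ee (φ + -θ') := by
    rw [I_mul_ee, I_mul_ee, ad _ (φ + -θ' + Real.pi) (by ring),
      ad (φ + Real.pi / 2 + θ + Real.pi / 2) (φ + θ + Real.pi) (by ring), ee_pi, ee_pi]
    ring
  have arcv : I * ee (φ + Real.pi / 2 + θ) - I * ee (φ + 3 * (Real.pi / 2))
      = -(ee φ + ee (φ + θ)) := by
    rw [I_mul_ee, I_mul_ee, ad (φ + Real.pi / 2 + θ + Real.pi / 2) (φ + θ + Real.pi) (by ring),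
      ad (φ + 3 * (Real.pi / 2) + Real.pi / 2) (φ + 2 * Real.pi) (by ring), ee_pi, ee_per]
    ring
  have arcw : I * ee (φ + 3 * (Real.pi / 2)) - I * ee (φ + Real.pi / 2 - θ' + 2 * Real.pi)
      = ee φ + ee (φ + -θ') := by
    rw [I_mul_ee, I_mul_ee, ad (φ + 3 * (Real.pi / 2) + Real.pi / 2) (φ + 2 * Real.pi) (by ring),
      ee_per, ad (φ + Real.pi / 2 - θ' + 2 * Real.pi + Real.pi / 2)
        (φ + -θ' + Real.pi + 2 * Real.pi) (by ring), ee_per, ee_pi]
    ring
  have cert : ∀ h' : ℂ → ℝ, Sublin h' →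
      (κ * h' s.1 = h' (ee (φ + θ) - ee (φ + -θ'))) ∧
      (c1 * h' i.1 + c2 * h' j.1 ≤ h' (-(ee φ + ee (φ + θ)))) ∧
      (c3 * h' k.1 + c4 * h' j.1 ≤ h' (ee φ + ee (φ + -θ'))) ∧
      (h' (ee (φ + θ) - ee (φ + -θ'))
        ≤ ∫ θ in (φ + Real.pi / 2 - θ')..(φ + Real.pi / 2 + θ), h' (ee θ)) ∧
      (h' (-(ee φ + ee (φ + θ)))
        ≤ ∫ θ in (φ + Real.pi / 2 + θ)..(φ + 3 * (Real.pi / 2)), h' (ee θ)) ∧
      (h' (ee φ + ee (φ + -θ'))
        ≤ ∫ θ in (φ + 3 * (Real.pi / 2))..(φ + Real.pi / 2 - θ' + 2 * Real.pi), h' (ee θ)) ∧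
      lam h' = (∫ θ in (φ + Real.pi / 2 - θ')..(φ + Real.pi / 2 + θ), h' (ee θ)) +
        (∫ θ in (φ + Real.pi / 2 + θ)..(φ + 3 * (Real.pi / 2)), h' (ee θ)) +
        ∫ θ in (φ + 3 * (Real.pi / 2))..(φ + Real.pi / 2 - θ' + 2 * Real.pi), h' (ee θ) := by
    intro h' hh'
    have neg_case : ∀ (a b z : ℂ) (r q : ℝ), 0 < r → q < 0 → (r : ℂ) * a + (q : ℂ) * b = z →
        r * h' a + q * h' b ≤ h' z := by
      intro a b z r q hr hq e
      have e3 : (r : ℂ) * a = z + ((-q : ℝ) : ℂ) * b := by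
        rw [← e]; push_cast; ring
      have h1 : r * h' a ≤ h' z + (-q) * h' b := by
        rw [← hh'.2 _ _ hr.le, e3, ← hh'.2 _ _ (by linarith : (0 : ℝ) ≤ -q)]
        exact hh'.1 _ _
      linarith
    refine ⟨?_, neg_case _ _ _ _ _ c1p c2n vecv, neg_case _ _ _ _ _ c3p c4n vecw, ?_, ?_, ?_, ?_⟩
    · rw [← hs2, hh'.2 _ _ hκ0.le]
    · rw [← arcx]; exact arc_int hARC hh' (by linarith) (by linarith)
    · rw [← arcv]; exact arc_int hARC hh' (by linarith) (by linarith)
    · rw [← arcw]; exact arc_int hARC hh' (by linarith) (by linarith)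
    · rw [lam_arc h' (φ + Real.pi / 2 - θ'),
        intervalIntegral.integral_add_adjacent_intervals (sub_ii hh' _ _) (sub_ii hh' _ _),
        intervalIntegral.integral_add_adjacent_intervals (sub_ii hh' _ _) (sub_ii hh' _ _)]
  have hcert : ∀ h' : ℂ → ℝ, Sublin h' →
      ∑ t ∈ ({i, j, k, s} : Finset HP), c t * h' t.1 ≤ lam h' := by
    intro h' hh'
    rw [sum4 ne, ci, cj, ck, cs]
    obtain ⟨h1, h2, h3, h4, h5, h6, h7⟩ := cert h' hh'
    linarith
  have eqc : ∀ h' : ℂ → ℝ, Sublin h' →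
      (∀ t ∈ ({i, j, k, s} : Finset HP), 0 ≤ c t * (h' t.1 - t.2)) → lam h' ≤ d + p + p' →
      (∀ t ∈ Set.Icc (φ + Real.pi / 2 - θ') (φ + Real.pi / 2 + θ), h' (ee t) = ip (ee t) x) ∧
      (∀ t ∈ Set.Icc (φ + Real.pi / 2 + θ) (φ + 3 * (Real.pi / 2)),
        h' (ee t) = ip (ee t) v) ∧
      ∀ t ∈ Set.Icc (φ + 3 * (Real.pi / 2)) (φ + Real.pi / 2 - θ' + 2 * Real.pi),
        h' (ee t) = ip (ee t) w := by
    intro h' hh' hst hl'
    obtain ⟨h1, h2, h3, h4, h5, h6, h7⟩ := cert h' hh'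
    have hsum : ∑ t ∈ ({i, j, k, s} : Finset HP), c t * (h' t.1 - t.2) ≤ 0 := by
      have : ∑ t ∈ ({i, j, k, s} : Finset HP), c t * (h' t.1 - t.2)
          = ∑ t ∈ ({i, j, k, s} : Finset HP), c t * h' t.1
            - ∑ t ∈ ({i, j, k, s} : Finset HP), c t * t.2 := by
        rw [← Finset.sum_sub_distrib]
        exact Finset.sum_congr rfl fun s _ => by ring
      rw [this, hval]
      linarith [hcert h' hh']
    have hz : ∀ t ∈ ({i, j, k, s} : Finset HP), c t * (h' t.1 - t.2) = 0 :=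
      (Finset.sum_eq_zero_iff_of_nonneg hst).1 (le_antisymm hsum (Finset.sum_nonneg hst))
    have hst2 : ∀ t ∈ ({i, j, k, s} : Finset HP), c t ≠ 0 → h' t.1 = t.2 := by
      intro t ht h0
      have := (mul_eq_zero.1 (hz t ht)).resolve_left h0
      linarith
    have ti := hst2 i (by simp) ci0
    have tj := hst2 j (by simp) cj0
    have tk := hst2 k (by simp) ck0
    have ts := hst2 s (by simp) cs0
    rw [sum4 ne, ci, cj, ck, cs] at hval
    rw [ti, tj] at h2
    rw [tj, tk] at h3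
    rw [ts] at h1
    obtain ⟨yx, -, hyx⟩ := arc_eq hARC hh' (a := φ + Real.pi / 2 - θ')
      (b := φ + Real.pi / 2 + θ) (by linarith) (by linarith) (by rw [arcx]; linarith)
    obtain ⟨yv, -, hyv⟩ := arc_eq hARC hh' (a := φ + Real.pi / 2 + θ)
      (b := φ + 3 * (Real.pi / 2)) (by linarith) (by linarith) (by rw [arcv]; linarith)
    obtain ⟨yw, -, hyw⟩ := arc_eq hARC hh' (a := φ + 3 * (Real.pi / 2))
      (b := φ + Real.pi / 2 - θ' + 2 * Real.pi) (by linarith) (by linarith)
      (by rw [arcw]; linarith)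
    have ej : ee (φ + 3 * (Real.pi / 2)) = j.1 := by
      rw [hj1, ← ee_per (φ + -(Real.pi / 2))]; congr 1; ring
    have e1 : yv = v := by
      apply H40.eq_of_ip (a := i.1) (b := j.1) (by rw [dtij]; exact sA.ne')
      · have := hyv (φ + (α + Real.pi / 2)) ⟨by linarith, by linarith⟩
        rw [← hi1, ti] at this
        rw [← this, S.vi.on₁]
      · have := hyv (φ + 3 * (Real.pi / 2)) ⟨by linarith, by linarith⟩
        rw [ej, tj] at this
        rw [← this, S.vi.on₂]
    have e2 : yw = w := by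
      apply H40.eq_of_ip (a := k.1) (b := j.1) (by rw [dtkj]; linarith)
      · have := hyw (φ + (Real.pi / 2 - α') + 2 * Real.pi) ⟨by linarith, by linarith⟩
        rw [ee_per, ← hk1, tk] at this
        rw [← this, S.wk.on₂]
      · have := hyw (φ + 3 * (Real.pi / 2)) ⟨by linarith, by linarith⟩
        rw [ej, tj] at this
        rw [← this, S.wk.on₁]
    rw [e1] at hyv
    rw [e2] at hyw
    have e3 : yx = x := by
      apply H40.eq_of_ip (a := ee (φ + Real.pi / 2 + θ)) (b := ee (φ + Real.pi / 2 - θ'))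
      · rw [dt_ee_ee]
        have : φ + Real.pi / 2 - θ' - (φ + Real.pi / 2 + θ) = -(θ + θ') := by ring
        rw [this, Real.sin_neg]; linarith
      · have a1 := hyx (φ + Real.pi / 2 + θ) ⟨by linarith, by linarith⟩
        have a2 := hyv (φ + Real.pi / 2 + θ) ⟨by linarith, by linarith⟩
        rw [← a1, a2]
        have a3 : ip (ee (φ + Real.pi / 2 + θ)) (x - v) = 0 := by
          rw [exv, H69.ip_smul_right, ip_ee_ee]
          have : φ + Real.pi / 2 + θ - (φ + θ) = Real.pi / 2 := by ring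
          rw [this, Real.cos_pi_div_two]; ring
        rw [H69.ip_sub_right] at a3
        linarith
      · have a1 := hyx (φ + Real.pi / 2 - θ') ⟨by linarith, by linarith⟩
        have a2 := hyw (φ + Real.pi / 2 - θ' + 2 * Real.pi) ⟨by linarith, by linarith⟩
        rw [ee_per] at a2
        rw [← a1, a2]
        have a3 : ip (ee (φ + Real.pi / 2 - θ')) (x - w) = 0 := by
          rw [exw, H69.ip_neg_right, H69.ip_smul_right, ip_ee_ee]
          have : φ + Real.pi / 2 - θ' - (φ + -θ') = Real.pi / 2 := by ring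
          rw [this, Real.cos_pi_div_two]; ring
        rw [H69.ip_sub_right] at a3
        linarith
    rw [e3] at hyx
    exact ⟨hyx, hyv, hyw⟩
  have hfit := (pts3 (S := ∅) S.vi.cl S.wk.cl hx (by simp)).2.1
  rw [← S.body] at hfit
  have hsub : Sublin h := by rw [S.body]; exact H69.sub_hf _
  have tE : ∀ t ∈ ({i, j, k, s} : Finset HP), h t.1 = t.2 := by
    intro t ht
    rw [← hT] at ht
    exact (mem_touch.1 ht).2
  have hK := eqc h hsub (fun t ht => by rw [tE t ht]; simp) hlam.le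
  refine ⟨c, ?_, ?_⟩
  · rw [hlam]
    refine ⟨card4 ne, np, hsub, hfit, hT, hlam, ?_, ?_, hcert, hval, ?_, ?_⟩
    · intro t ht
      simp only [Finset.mem_insert, Finset.mem_singleton] at ht
      rcases ht with h1 | h1 | h1 | h1 <;> rw [h1] <;> assumption
    · rw [sum4 ne, ci, cj, ck, cs]
      push_cast
      linear_combination vecv + vecw + hs2
    · intro h' hh' hs hl'
      have hK' := eqc h' hh' hs hl'
      apply sub_ext hh' hsub (φ + Real.pi / 2 - θ')
      intro t ht
      rcases le_total t (φ + Real.pi / 2 + θ) with h1 | h1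
      · rw [hK'.1 t ⟨ht.1, h1⟩, hK.1 t ⟨ht.1, h1⟩]
      · rcases le_total t (φ + 3 * (Real.pi / 2)) with h2 | h2
        · rw [hK'.2.1 t ⟨h1, h2⟩, hK.2.1 t ⟨h1, h2⟩]
        · rw [hK'.2.2 t ⟨h2, ht.2⟩, hK.2.2 t ⟨h2, ht.2⟩]
    · intro t ht hct
      have memX : ∀ r ∈ ({i, j, k, s} : Finset HP), r ∈ X := by
        intro r hr
        rw [← hT] at hr
        exact (mem_touch.1 hr).1
      have fin : ∀ v' ∈ Cl X, ∀ w' ∈ Cl X,
          ‖v' - w'‖ + ‖w' - x‖ + ‖x - v'‖ < d + p + p' →
          (∀ r ∈ ({i, j, k, s} : Finset HP), r ≠ t →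
            ip r.1 v' = r.2 ∨ ip r.1 w' = r.2 ∨ ip r.1 x = r.2) →
          Lt X (({i, j, k, s} : Finset HP).erase t) (d + p + p') := by
        intro v' hv' w' hw' hlt hr
        have hb := pts3 (S := ({i, j, k, s} : Finset HP).erase t) hv' hw' hx (by
          intro r hr1
          rw [Finset.mem_erase] at hr1
          exact ⟨memX r hr1.2, hr r hr1.2 hr1.1⟩)
        exact ⟨_, hb.1, hb.2.1, hb.2.2, by rw [H69.lam3]; linarith⟩
      simp only [Finset.mem_insert, Finset.mem_singleton] at ht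
      rcases ht with h1 | h1 | h1 | h1
      · subst h1
        obtain ⟨v', b1, b2, b3⟩ := NA.2
        refine fin v' b1 w S.wk.cl ?_ fun r hr hrt => ?_
        · rw [norm_sub_rev v' w, norm_sub_rev w x, norm_sub_rev x v', ← hp'_def]
          rw [norm_sub_rev v x, ← hp_def] at b3
          linarith
        · simp only [Finset.mem_insert, Finset.mem_singleton] at hr
          rcases hr with h2 | h2 | h2 | h2
          · exact absurd h2 hrt
          · subst h2; exact Or.inl b2
          · subst h2; exact Or.inr (Or.inl S.wk.on₂)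
          · subst h2; exact Or.inr (Or.inr S.xs)
      · subst h1
        rw [cj] at hct
        linarith
      · subst h1
        obtain ⟨w', b1, b2, b3⟩ := NB.2
        refine fin v S.vi.cl w' b1 ?_ fun r hr hrt => ?_
        · rw [norm_sub_rev w x, ← hp'_def, norm_sub_rev v w, ← hd_def] at b3
          rw [← hp_def]
          linarith
        · simp only [Finset.mem_insert, Finset.mem_singleton] at hr
          rcases hr with h2 | h2 | h2 | h2
          · subst h2; exact Or.inl S.vi.on₁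
          · subst h2; exact Or.inl S.vi.on₂
          · exact absurd h2 hrt
          · subst h2; exact Or.inr (Or.inr S.xs)
      · subst h1
        have hb := pts2 (S := ({i, j, k, t} : Finset HP).erase t) S.vi.cl S.wk.cl (by
          intro r hr1
          rw [Finset.mem_erase] at hr1
          refine ⟨memX r hr1.2, ?_⟩
          have hr := hr1.2
          simp only [Finset.mem_insert, Finset.mem_singleton] at hr
          rcases hr with h2 | h2 | h2 | h2
          · subst h2; exact Or.inl S.vi.on₁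
          · subst h2; exact Or.inl S.vi.on₂
          · subst h2; exact Or.inr S.wk.on₂
          · exact absurd h2 hr1.1)
        exact ⟨_, hb.1, hb.2.1, hb.2.2, by
          rw [H69.lam2, norm_sub_rev v w, ← hd_def]; linarith⟩
  · -- the standard form
    have ucn : ‖(starRingEnd ℂ) (ee φ)‖ = 1 := by rw [Complex.norm_conj, norm_ee]
    set U := H40.rot ((starRingEnd ℂ) (ee φ)) ucn with hU
    have Uap : ∀ z, U z = (starRingEnd ℂ) (ee φ) * z := H40.rot_apply _ _
    have nn : ip (ee φ) (ee φ) = 1 := by rw [ip_self, norm_ee]; norm_num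
    have Uip : ∀ z w, ip (U z) (U w) = ip z w := by
      intro z w
      rw [Uap, Uap]
      have id1 : ip ((starRingEnd ℂ) (ee φ) * z) ((starRingEnd ℂ) (ee φ) * w)
          = ip (ee φ) (ee φ) * ip z w := by
        simp only [ip, mul_re, mul_im, conj_re, conj_im]; ring
      rw [id1, nn, one_mul]
    have Uee : ∀ t : ℝ, U (ee (φ + t)) = ee t := by
      intro t
      rw [Uap, ← H69.ee_neg, mul_comm, ← ee_add]
      congr 1; ring
    have Uee0 : U (ee φ) = 1 := by
      have := Uee 0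
      rw [add_zero] at this
      rw [this]; unfold ee; simp
    have Usm : ∀ (r : ℝ) (z : ℂ), U ((r : ℂ) * z) = (r : ℂ) * U z := by
      intro r z
      rw [Uap, Uap]; ring
    have ex : ∀ t : ℝ, exp ((t : ℂ) * I) = ee t := fun t => rfl
    set g := H40.iso U v 0 with hg
    have gi : mv g i = lnU α := by
      apply H40.mv_iso Uip
      · rw [hi1, Uee]
        unfold lnU
        change ee (α + Real.pi / 2) = I * ee α
        rw [I_mul_ee]
      · unfold lnU
        rw [S.vi.on₁, H69.ip_zero_right]; ring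
    have gj : mv g j = lnD 0 := by
      apply H40.mv_iso Uip
      · rw [hj1, Uee]
        unfold lnD
        apply Complex.ext
        · rw [(ee_re_im _).1, Real.cos_neg, Real.cos_pi_div_two]; simp
        · rw [(ee_re_im _).2, Real.sin_neg, Real.sin_pi_div_two]; simp
      · unfold lnD
        rw [S.vi.on₂, H69.ip_zero_right]; ring
    have hUwv : U (w - v) = (d : ℂ) := by rw [ewv, Usm, Uee0, mul_one]
    have gk : mv g k = lnN (Real.pi / 2 - α') d := by
      have h1 : U k.1 = exp (((Real.pi / 2 - α' : ℝ) : ℂ) * I) := by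
        rw [hk1, Uee]; rfl
      apply H40.mv_iso Uip
      · exact h1
      · have h2 : k.2 - ip k.1 v = ip (U k.1) d := by
          rw [← hUwv, Uip, H69.ip_sub_right, S.wk.on₂]
        rw [h2]
        unfold lnN
        rw [h1, H69.ip_zero_right]; ring
    have gs : mv g s = lnN (Real.pi / 2 + (θ - θ') / 2) (U (x - v)) := by
      have h1 : U s.1 = exp (((Real.pi / 2 + (θ - θ') / 2 : ℝ) : ℂ) * I) := by
        rw [hs1, Uee]; rfl
      apply H40.mv_iso Uip
      · exact h1
      · have h2 : s.2 - ip s.1 v = ip (U s.1) (U (x - v)) := by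
          rw [Uip, H69.ip_sub_right, S.xs]
        rw [h2]
        unfold lnN
        rw [h1, H69.ip_zero_right]; ring
    have ha1 : U (x - v) = (p : ℂ) * exp (θ * I) := by
      rw [exv, Usm, Uee]; rfl
    have ha2 : U (x - v) = (d : ℂ) - (p' : ℂ) * exp (-(θ' * I)) := by
      have e1 : x - v = (w - v) + (x - w) := by ring
      rw [e1, map_add, hUwv, exw, map_neg, Usm, Uee]
      have : ee (-θ') = exp (-(θ' * I)) := by
        unfold ee; push_cast; rw [neg_mul]
      rw [this]; ring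
    have hna : ‖U (x - v)‖ = p := by rw [LinearIsometryEquiv.norm_map]
    have hnb : ‖U (x - v) - (d : ℂ)‖ = p' := by
      rw [← hUwv, ← map_sub, LinearIsometryEquiv.norm_map, hp'_def]
      congr 1; ring
    refine ⟨g, α, α', θ, θ', d, U (x - v), TA.1, al1, TB.1, al1', th0, TA.2.1, th0', TB.2.1, hd,
      ths, ⟨p, hp, ha1⟩, ⟨p', hp', ha2⟩, ?_, ?_, ?_⟩
    · rw [hna, hnb, hlam]
    · rw [Finset.image_insert, Finset.image_insert, Finset.image_insert, Finset.image_singleton,
        gi, gj, gk, gs]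
    · rw [Mm_image (p1 := True) (p2 := False) (p3 := True) (p4 := True), gj]
      · simp
      · rw [ci]; simp [c1p.le]
      · rw [cj]; simp; linarith
      · rw [ck]; simp [c3p.le]
      · rw [cs]; simp [hκ0.le]

end core

/-- module TO4 -/
theorem to4 (hV : VxxStatement) (hS : SlxStatement) (hARC : ArcStatement) : To4Statement := by
  intro X hX h i j k s v w x S hm np d1 d2 nij njk
  change Con4 X h i j k s
  have hjx := S.xt j S.vi.mem₂ S.ne.2.2.2.2.1
  have hne : dt (w - v) (x - v) ≠ 0 := by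
    intro h0
    obtain ⟨V1, V2, -⟩ := hV X hX
    have h1 : ip j.1 (w - v) = 0 := by rw [H69.ip_sub_right, S.wk.on₁, S.vi.on₂]; ring
    have h2 : ip j.1 (x - v) < 0 := by rw [H69.ip_sub_right, S.vi.on₂]; linarith
    have h3 : ip j.1 (x - v) * ip (w - v) (w - v)
        = ip j.1 (w - v) * ip (w - v) (x - v) + dt (w - v) (x - v) * dt (w - v) j.1 * (-1) * (-1)
        := by
      simp only [ip, dt]; ring
    rw [h0, h1] at h3
    have h4 : ip (w - v) (w - v) = 0 := by
      have : ip j.1 (x - v) * ip (w - v) (w - v) = 0 := by rw [h3]; ring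
      exact (mul_eq_zero.1 this).resolve_left h2.ne
    rw [ip_self] at h4
    have h5 : w - v = 0 := by
      rw [← norm_eq_zero]
      exact pow_eq_zero_iff (two_ne_zero) |>.1 h4
    have h6 : w = v := sub_eq_zero.1 h5
    have h7 := V2 j k w S.wk i S.vi.mem₁ S.ne.1 S.ne.2.1
    rw [h6, S.vi.on₁] at h7
    exact lt_irrefl _ h7
  rcases lt_or_gt_of_ne hne with h1 | h1
  · have o : 0 < dt (v - w) (x - w) := by
      have : dt (v - w) (x - w) = -dt (w - v) (x - v) := by
        simp only [dt, sub_re, sub_im]; ring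
      rw [this]; linarith
    have np2 : Np {k, j, i, s} := by rw [set4]; exact np
    obtain ⟨c, h2, h3⟩ := core4 hV hS hARC hX (swap4 S) hm np2 d2 d1 o
    rw [set4] at h2 h3
    exact ⟨c, h2, h3⟩
  · exact core4 hV hS hARC hX S hm np d1 d2 h1

end Pool.Agent.XQ.H30
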